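import Pool.Agent.H989R3.Kameko.Defs

/-!
Coefficient functionals at exponents of the form `2^j - 1` are annihilated by the transposed
Steenrod squares.
-/

set_option autoImplicit false

namespace Pool.Agent.H989R3.Kameko

open MvPolynomial

/-- For `k > 0` the binomial coefficient `(2^j - 1 - k) choose k` is even. -/
theorem choose_even (j : ℕ) : ∀ k, 0 < k → 2 ∣ (2 ^ j - 1 - k).choose k := by
  induction j with
  | zero =>
    intro k hk
    have : 2 ^ 0 - 1 - k = 0 := by omega
    rw [this, Nat.choose_eq_zero_of_lt hk]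
    exact dvd_zero _
  | succ j ih =>
    intro k hk
    have : Fact (Nat.Prime 2) := ⟨Nat.prime_two⟩
    have hp : 2 ^ (j + 1) = 2 * 2 ^ j := by ring
    have hpos : 0 < 2 ^ j := by positivity
    by_cases hk2 : 2 ^ (j + 1) - 1 < k
    · have : 2 ^ (j + 1) - 1 - k = 0 := by omega
      rw [this, Nat.choose_eq_zero_of_lt hk]
      exact dvd_zero _
    · have h := Choose.choose_modEq_choose_mod_mul_choose_div_nat
        (n := 2 ^ (j + 1) - 1 - k) (k := k) (p := 2)
      rw [← Nat.modEq_zero_iff_dvd]
      refine h.trans ?_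
      rcases Nat.even_or_odd k with ⟨m, hm⟩ | ⟨m, hm⟩
      · have e1 : (2 ^ (j + 1) - 1 - k) / 2 = 2 ^ j - 1 - k / 2 := by omega
        have e2 : 0 < k / 2 := by omega
        rw [e1]
        exact (Nat.modEq_zero_iff_dvd).2 ((ih (k / 2) e2).mul_left _)
      · have e1 : (2 ^ (j + 1) - 1 - k) % 2 = 0 := by omega
        have e2 : k % 2 = 1 := by omega
        rw [e1, e2]
        simp [Nat.ModEq]

/-- The functional taking the coefficient of `x^s`, that is, the divided power monomial
`a_1^(s_1) ... a_d^(s_d)`. -/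
noncomputable def Zc {d : ℕ} (s : Fin d →₀ ℕ) : Du d := lcoeff (ZMod 2) s

theorem Zc_apply {d : ℕ} (s : Fin d →₀ ℕ) (f : Pol d) : Zc s f = coeff s f := rfl

theorem Zc_monomial {d : ℕ} (s r : Fin d →₀ ℕ) :
    Zc s (monomial r 1) = if r = s then 1 else 0 := by
  classical
  rw [Zc_apply, coeff_monomial]

/-- Two functionals agreeing on monomials are equal. -/
theorem du_ext {d : ℕ} {z w : Du d} (h : ∀ r : Fin d →₀ ℕ, z (monomial r 1) = w (monomial r 1)) :
    z = w := by
  refine (basisMonomials (Fin d) (ZMod 2)).ext fun r => ?_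
  simpa using h r

theorem sqTot_monomial {d : ℕ} (r : Fin d →₀ ℕ) :
    sqTot d (monomial r 1) = ∑ p ∈ Fintype.piFinset (fun i => Finset.range (r i + 1)),
      Polynomial.C (monomial (r + Finsupp.equivFunOnFinite.symm p)
        (∏ i, ((r i).choose (p i) : ZMod 2))) * Polynomial.X ^ (∑ i, p i) := by
  have h1 : (monomial r 1 : Pol d) = ∏ i, X i ^ r i := by
    rw [monomial_eq, C_1, one_mul, Finsupp.prod_fintype]
    simp
  rw [h1, map_prod]
  have h2 : ∀ i, sqTot d (X i ^ r i) = ∑ m ∈ Finset.range (r i + 1),
      Polynomial.C (monomial (Finsupp.single i (r i + m)) ((r i).choose m : ZMod 2)) *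
        Polynomial.X ^ m := by
    intro i
    rw [map_pow, sqTot_X, add_comm, add_pow]
    refine Finset.sum_congr rfl fun m hm => ?_
    have hm' : m ≤ r i := by
      have := Finset.mem_range.1 hm
      omega
    have e : (monomial (Finsupp.single i (r i + m)) ((r i).choose m : ZMod 2) : Pol d) =
        ((r i).choose m : Pol d) * (X i ^ (r i - m) * (X i ^ 2) ^ m) := by
      rw [← pow_mul, ← pow_add, X_pow_eq_monomial]
      have : r i - m + 2 * m = r i + m := by omega
      rw [this]
      have h3 : ((r i).choose m : Pol d) = C ((r i).choose m : ZMod 2) := by simp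
      rw [h3, C_mul_monomial, mul_one]
    rw [e, mul_pow, ← Polynomial.C_pow, ← Polynomial.C_pow, map_mul, map_mul]
    simp only [map_natCast]
    ring
  rw [Finset.prod_congr rfl fun i _ => h2 i, Finset.prod_univ_sum]
  refine Finset.sum_congr rfl fun p _ => ?_
  rw [Finset.prod_mul_distrib, Finset.prod_pow_eq_pow_sum, ← map_prod]
  congr 2
  have h4 : (r + Finsupp.equivFunOnFinite.symm p : Fin d →₀ ℕ) =
      ∑ i, Finsupp.single i (r i + p i) := by
    ext i
    rw [Finsupp.finsetSum_apply, Finset.sum_eq_single i]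
    · simp
    · intro b _ hb
      simp [hb]
    · simp
  rw [h4, monomial_sum_index, map_prod, ← Finset.prod_mul_distrib]
  refine Finset.prod_congr rfl fun i _ => ?_
  rw [C_mul_monomial, mul_one]

/-- If all `s i` are of the form `2^j - 1` then the coefficient of `x^s` in `Sq^k f` vanishes for
`k > 0`. -/
theorem Zc_sq {d : ℕ} (s : Fin d →₀ ℕ) (hs : ∀ i, ∃ j : ℕ, s i = 2 ^ j - 1) (k : ℕ) (hk : 0 < k)
    (f : Pol d) : Zc s (sq d k f) = 0 := by
  classical
  have key : (Zc s) ∘ₗ (sq d k) = 0 := by
    refine du_ext fun r => ?_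
    rw [LinearMap.comp_apply, sq_apply, sqTot_monomial, Polynomial.finsetSum_coeff, map_sum,
      LinearMap.zero_apply]
    refine Finset.sum_eq_zero fun p hp => ?_
    rw [Polynomial.coeff_C_mul, Polynomial.coeff_X_pow]
    split_ifs with hkp
    · rw [mul_one, Zc_apply, coeff_monomial]
      split_ifs with hrs
      · have : ∃ i, 0 < p i := by
          by_contra hcon
          push Not at hcon
          have : ∑ i, p i = 0 := Finset.sum_eq_zero fun i _ => by
            have := hcon i
            omega
          omega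
        obtain ⟨i, hi⟩ := this
        refine Finset.prod_eq_zero (Finset.mem_univ i) ?_
        obtain ⟨j, hj⟩ := hs i
        have h1 : r i + p i = s i := by
          rw [← hrs]
          simp
        have h2 : r i = 2 ^ j - 1 - p i := by omega
        rw [h2]
        exact (ZMod.natCast_eq_zero_iff _ _).2 (choose_even j _ hi)
      · rfl
    · rw [mul_zero, map_zero]
  exact congrArg (fun φ : Du d => φ f) key

/-- A functional vanishing on the monomials of degree `m` vanishes on homogeneous polynomials of
degree `m`. -/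
theorem vanish_homog {d : ℕ} (z : Du d) (m : ℕ)
    (h : ∀ t : Fin d →₀ ℕ, t.degree = m → z (monomial t 1) = 0) (f : Pol d)
    (hf : f.IsHomogeneous m) : z f = 0 := by
  rw [f.as_sum, map_sum]
  refine Finset.sum_eq_zero fun t ht => ?_
  have e : (monomial t (coeff t f) : Pol d) = (coeff t f) • monomial t 1 := by
    rw [smul_monomial, smul_eq_mul, mul_one]
  rw [e, map_smul, h t ?_, smul_zero]
  have := hf (mem_support_iff.1 ht)
  rw [← this, Finsupp.degree_eq_weight_one]
  rfl

theorem Zc_mem {d : ℕ} (s : Fin d →₀ ℕ) (hs : ∀ i, ∃ j : ℕ, s i = 2 ^ j - 1) {n : ℕ}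
    (hn : s.degree = n) : Zc s ∈ PH d n := by
  refine ⟨fun m hm f hf => ?_, fun k hk f => Zc_sq s hs k hk f⟩
  refine vanish_homog _ m (fun t ht => ?_) f hf
  rw [Zc_monomial, if_neg]
  rintro rfl
  exact hm (ht.symm.trans hn)

end Pool.Agent.H989R3.Kameko
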