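import Mathlib

/-!
Kameko's squaring operation on the coinvariants `F_2 ⊗_{GL_d} P H_n(B(Z/2)^d)`.

`P_d = F_2[x_1, ..., x_d]`; the dual `H_n` of its degree `n` part is the space of linear
functionals on `P_d` vanishing on homogeneous polynomials of degree different from `n`. The
functional taking the coefficient of `x^s` is the divided power monomial `a_1^(s_1) ... a_d^(s_d)`.
-/

set_option autoImplicit false

namespace Pool.Agent.H989R3.Kameko

open MvPolynomial

/-- The polynomial algebra `P_d = F_2[x_1, ..., x_d]`. -/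
abbrev Pol (d : ℕ) : Type := MvPolynomial (Fin d) (ZMod 2)

/-- The total Steenrod square: the algebra map `P_d → P_d[T]` with `x_i ↦ x_i + T x_i ^ 2`. -/
noncomputable def sqTot (d : ℕ) : Pol d →ₐ[ZMod 2] Polynomial (Pol d) :=
  aeval fun i => Polynomial.C (X i) + Polynomial.X * Polynomial.C (X i ^ 2)

/-- The Steenrod square `Sq^k` on `P_d`: the coefficient of `T^k` in the total square. -/
noncomputable def sq (d k : ℕ) : Pol d →ₗ[ZMod 2] Pol d :=
  ((Polynomial.lcoeff (Pol d) k).restrictScalars (ZMod 2)) ∘ₗ (sqTot d).toLinearMap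

/-- The substitution `x_j ↦ ∑ i, w i j * x_i` given by a matrix `w`. -/
noncomputable def act {d : ℕ} (w : Matrix (Fin d) (Fin d) (ZMod 2)) :
    Pol d →ₐ[ZMod 2] Pol d :=
  aeval fun j => ∑ i, C (w i j) * X i

/-- The (non graded) linear dual of `P_d`. -/
abbrev Du (d : ℕ) : Type := Module.Dual (ZMod 2) (Pol d)

/-- `P H_n`: the linear functionals on `P_d` which vanish in all degrees different from `n` and
are annihilated by the transposes of all Steenrod squares `Sq^k`, `k > 0`. -/
def PH (d n : ℕ) : Submodule (ZMod 2) (Du d) where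
  carrier := {z | (∀ m, m ≠ n → ∀ f : Pol d, f.IsHomogeneous m → z f = 0) ∧
    ∀ k, 0 < k → ∀ f : Pol d, z (sq d k f) = 0}
  add_mem' := by
    rintro a b ⟨ha, ha'⟩ ⟨hb, hb'⟩
    exact ⟨fun m hm f hf => by rw [LinearMap.add_apply, ha m hm f hf, hb m hm f hf, add_zero],
      fun k hk f => by rw [LinearMap.add_apply, ha' k hk f, hb' k hk f, add_zero]⟩
  zero_mem' := ⟨fun _ _ _ _ => rfl, fun _ _ _ => rfl⟩
  smul_mem' := by
    rintro c a ⟨ha, ha'⟩
    exact ⟨fun m hm f hf => by rw [LinearMap.smul_apply, ha m hm f hf, smul_zero],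
      fun k hk f => by rw [LinearMap.smul_apply, ha' k hk f, smul_zero]⟩

/-- The linear map on `P_d` sending `x^t` to `x^((t-1)/2)` if all exponents are odd, and to `0`
otherwise. -/
noncomputable def down (d : ℕ) : Pol d →ₗ[ZMod 2] Pol d :=
  (basisMonomials (Fin d) (ZMod 2)).constr (ZMod 2) fun t =>
    if ∀ i, Odd (t i) then monomial (t.mapRange (fun m => (m - 1) / 2) rfl) 1 else 0

theorem sq_apply (d k : ℕ) (f : Pol d) : sq d k f = (sqTot d f).coeff k := rfl

theorem act_X {d : ℕ} (w : Matrix (Fin d) (Fin d) (ZMod 2)) (j : Fin d) :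
    act w (X j) = ∑ i, C (w i j) * X i := by simp [act]

theorem sqTot_X (d : ℕ) (i : Fin d) :
    sqTot d (X i) = Polynomial.C (X i) + Polynomial.X * Polynomial.C (X i ^ 2) := by
  simp [sqTot]

theorem zmod2_sq (c : ZMod 2) : c ^ 2 = c := by revert c; decide

theorem act_mul {d : ℕ} (v w : Matrix (Fin d) (Fin d) (ZMod 2)) (f : Pol d) :
    act v (act w f) = act (v * w) f := by
  have : (act v).comp (act w) = act (v * w) := by
    apply algHom_ext
    intro j
    simp only [AlgHom.comp_apply, act_X, map_sum, map_mul, algHom_C]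
    simp only [act_X, Matrix.mul_apply, map_sum, Finset.sum_mul, Finset.mul_sum]
    rw [Finset.sum_comm]
    refine Finset.sum_congr rfl fun i _ => Finset.sum_congr rfl fun k _ => ?_
    simp only [algebraMap_eq, map_mul]
    ring
  rw [← this]; rfl

theorem act_one {d : ℕ} (f : Pol d) : act (1 : Matrix (Fin d) (Fin d) (ZMod 2)) f = f := by
  have : act (1 : Matrix (Fin d) (Fin d) (ZMod 2)) = AlgHom.id _ _ := by
    apply algHom_ext
    intro j
    rw [act_X, AlgHom.id_apply, Finset.sum_eq_single j]
    · simp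
    · intro i _ hij
      simp [Matrix.one_apply_ne hij]
    · simp
  rw [this]; rfl

/-- The Steenrod squares commute with linear substitutions. -/
theorem sqTot_act {d : ℕ} (w : Matrix (Fin d) (Fin d) (ZMod 2)) (f : Pol d) :
    sqTot d (act w f) = Polynomial.mapAlgHom (act w) (sqTot d f) := by
  have key : (sqTot d).comp (act w) = (Polynomial.mapAlgHom (act w)).comp (sqTot d) := by
    apply algHom_ext
    intro j
    have e1 : (sqTot d).comp (act w) (X j) =
        ∑ i, Polynomial.C (C (w i j)) * (Polynomial.C (X i) + Polynomial.X * Polynomial.C (X i ^ 2)) := by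
      rw [AlgHom.comp_apply, act_X, map_sum]
      refine Finset.sum_congr rfl fun i _ => ?_
      rw [map_mul, algHom_C, sqTot_X]
      rfl
    have e2 : (Polynomial.mapAlgHom (act w)).comp (sqTot d) (X j) =
        Polynomial.C (∑ i, C (w i j) * (X i : Pol d)) +
          Polynomial.X * Polynomial.C ((∑ i, C (w i j) * (X i : Pol d)) ^ 2) := by
      rw [AlgHom.comp_apply, sqTot_X, map_add, map_mul, Polynomial.coe_mapAlgHom,
        Polynomial.map_C, Polynomial.map_C, Polynomial.map_X]
      simp only [RingHom.coe_coe, map_pow, act_X]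
    rw [e1, e2, sum_pow_char 2, map_sum, map_sum, Finset.mul_sum, ← Finset.sum_add_distrib]
    refine Finset.sum_congr rfl fun i _ => ?_
    rw [mul_pow, ← C_pow, zmod2_sq, map_mul, map_mul]
    ring
  exact congrArg (fun φ => φ f) key

theorem sq_act {d : ℕ} (k : ℕ) (w : Matrix (Fin d) (Fin d) (ZMod 2)) (f : Pol d) :
    sq d k (act w f) = act w (sq d k f) := by
  rw [sq_apply, sqTot_act, sq_apply]
  simp [Polynomial.coeff_map]

theorem act_homog {d : ℕ} (w : Matrix (Fin d) (Fin d) (ZMod 2)) {f : Pol d} {m : ℕ}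
    (hf : f.IsHomogeneous m) : (act w f).IsHomogeneous m := by
  have h := hf.aeval (g := fun j : Fin d => ∑ i, C (w i j) * (X i : Pol d)) (n := 1) (fun j =>
    IsHomogeneous.sum _ _ _ fun i _ => by
      have := (isHomogeneous_C (Fin d) (w i j)).mul (isHomogeneous_X (ZMod 2) i)
      simpa using this)
  simpa [act] using h

/-- The right action of a matrix on `P H_n`, transpose to the substitution. -/
noncomputable def actPH {d : ℕ} (n : ℕ) (w : Matrix (Fin d) (Fin d) (ZMod 2)) :
    PH d n →ₗ[ZMod 2] PH d n :=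
  ((act w).toLinearMap.dualMap).restrict (p := PH d n) (q := PH d n) (by
    rintro z ⟨h1, h2⟩
    refine ⟨fun m hm f hf => h1 m hm _ (act_homog w hf), fun k hk f => ?_⟩
    change z (act w (sq d k f)) = 0
    rw [← sq_act]
    exact h2 k hk _)

theorem actPH_apply {d : ℕ} (n : ℕ) (w : Matrix (Fin d) (Fin d) (ZMod 2)) (z : PH d n)
    (f : Pol d) : (actPH n w z : Du d) f = (z : Du d) (act w f) := rfl

/-- The submodule of `P H_n` generated by the differences `z g - z`, `g` in `GL_d(F_2)`. -/
noncomputable def relCo (d n : ℕ) : Submodule (ZMod 2) (PH d n) :=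
  Submodule.span (ZMod 2)
    {y | ∃ (z : PH d n) (g : GL (Fin d) (ZMod 2)), y = actPH n (g : Matrix _ _ _) z - z}

/-- The coinvariants `F_2 ⊗_{GL_d} P H_n`. -/
abbrev Coinv (d n : ℕ) : Type := PH d n ⧸ relCo d n

end Pool.Agent.H989R3.Kameko
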