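import Pool.Agent.H989R3.Kameko.Coeff

/-!
The map `down` (dual Kameko map): compatibility with linear substitutions and with the Steenrod
squares; the Kameko map on `P H` and on coinvariants.
-/

set_option autoImplicit false

namespace Pool.Agent.H989R3.Kameko

open MvPolynomial

/-- Halving of exponents. -/
noncomputable abbrev halve {d : ℕ} (t : Fin d →₀ ℕ) : Fin d →₀ ℕ :=
  t.mapRange (fun m => (m - 1) / 2) rfl

theorem down_monomial {d : ℕ} (t : Fin d →₀ ℕ) :
    down d (monomial t 1) = if ∀ i, Odd (t i) then monomial (halve t) 1 else 0 := by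
  have : (monomial t 1 : Pol d) = basisMonomials (Fin d) (ZMod 2) t := by simp
  rw [this, down, Module.Basis.constr_basis]

theorem down_monomial_odd {d : ℕ} (t : Fin d →₀ ℕ) (h : ∀ i, Odd (t i)) :
    down d (monomial t 1) = monomial (halve t) 1 := by
  rw [down_monomial, if_pos h]

theorem down_monomial_even {d : ℕ} (t : Fin d →₀ ℕ) (i : Fin d) (h : ¬ Odd (t i)) :
    down d (monomial t 1) = 0 := by
  rw [down_monomial, if_neg fun hh => h (hh i)]

theorem down_mul_monomial_sq {d : ℕ} (m : Fin d →₀ ℕ) (u : Pol d) :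
    down d (u * (monomial m 1) ^ 2) = down d u * monomial m 1 := by
  have key : (down d) ∘ₗ (LinearMap.mulRight (ZMod 2) ((monomial m 1 : Pol d) ^ 2)) =
      (LinearMap.mulRight (ZMod 2) (monomial m 1 : Pol d)) ∘ₗ (down d) := by
    refine (basisMonomials (Fin d) (ZMod 2)).ext fun t => ?_
    simp only [coe_basisMonomials, LinearMap.comp_apply, LinearMap.mulRight_apply]
    rw [monomial_pow, monomial_mul, one_pow, one_mul]
    by_cases h : ∀ i, Odd (t i)
    · have h' : ∀ i, Odd ((t + 2 • m) i) := by
        intro i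
        obtain ⟨a, ha⟩ := h i
        refine ⟨a + m i, ?_⟩
        simp [ha]
        ring
      have hh : halve (t + 2 • m) = halve t + m := by
        ext i
        obtain ⟨a, ha⟩ := h i
        simp only [Finsupp.mapRange_apply, Finsupp.add_apply, Finsupp.smul_apply, smul_eq_mul]
        omega
      rw [down_monomial_odd _ h, down_monomial_odd _ h', monomial_mul, one_mul, hh]
    · push Not at h
      obtain ⟨i, hi⟩ := h
      rw [down_monomial_even _ i hi, down_monomial_even _ i, zero_mul]
      intro ho
      apply hi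
      obtain ⟨a, ha⟩ := ho
      simp only [Finsupp.add_apply, Finsupp.smul_apply, smul_eq_mul] at ha
      exact ⟨a - m i, by omega⟩
  exact congrArg (fun φ : Pol d →ₗ[ZMod 2] Pol d => φ u) key

theorem down_mul_sq {d : ℕ} (u h : Pol d) : down d (u * h ^ 2) = down d u * h := by
  have key : ∀ h : Pol d, down d (u * h ^ 2) = down d u * h := by
    intro h
    induction h using MvPolynomial.induction_on' with
    | monomial m c =>
      have e : (monomial m c : Pol d) = c • monomial m 1 := by
        rw [smul_monomial, smul_eq_mul, mul_one]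
      rw [e, smul_pow, zmod2_sq, mul_smul_comm, map_smul, down_mul_monomial_sq, mul_smul_comm]
    | add p q hp hq =>
      have e : (p + q) ^ 2 = p ^ 2 + q ^ 2 := by
        have := CharTwo.add_sq p q
        exact this
      rw [e, mul_add, map_add, hp, hq, mul_add]
  exact key h

theorem exists_notMem_of_ne_univ {d : ℕ} (S : Finset (Fin d)) (hS : S ≠ Finset.univ) :
    ∃ l, l ∉ S := by
  by_contra hcon
  push Not at hcon
  exact hS (Finset.eq_univ_iff_forall.2 hcon)

/-- The square-free monomial of a set of variables. -/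
noncomputable def xs {d : ℕ} (S : Finset (Fin d)) : Pol d := ∏ i ∈ S, X i

theorem xs_eq {d : ℕ} (S : Finset (Fin d)) :
    xs S = monomial (∑ i ∈ S, Finsupp.single i 1) 1 := by
  rw [xs, monomial_sum_one]
  rfl

theorem xs_exp {d : ℕ} (S : Finset (Fin d)) (l : Fin d) :
    (∑ i ∈ S, Finsupp.single i 1 : Fin d →₀ ℕ) l = if l ∈ S then 1 else 0 := by
  classical
  rw [Finsupp.finsetSum_apply]
  simp [Finsupp.single_apply]

theorem down_xs_univ {d : ℕ} : down d (xs Finset.univ) = 1 := by
  classical
  rw [xs_eq, down_monomial_odd]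
  · have : halve (∑ i, Finsupp.single i 1 : Fin d →₀ ℕ) = 0 := by
      ext l
      rw [Finsupp.mapRange_apply, xs_exp]
      simp
    rw [this]
    rfl
  · intro i
    rw [xs_exp]
    simp

theorem down_xs_ne {d : ℕ} (S : Finset (Fin d)) (l : Fin d) (hl : l ∉ S) :
    down d (xs S) = 0 := by
  classical
  rw [xs_eq, down_monomial_even _ l]
  rw [xs_exp, if_neg hl]
  simp

/-- Every monomial is a square-free monomial times a square. -/
theorem monomial_split {d : ℕ} (t : Fin d →₀ ℕ) : ∃ (S : Finset (Fin d)) (m : Fin d →₀ ℕ),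
    (monomial t 1 : Pol d) = xs S * (monomial m 1) ^ 2 := by
  classical
  refine ⟨Finset.univ.filter fun i => t i % 2 = 1, t.mapRange (fun m => m / 2) rfl, ?_⟩
  rw [xs_eq, monomial_pow, monomial_mul, one_pow, one_mul]
  refine congrArg (fun e : Fin d →₀ ℕ => (monomial e 1 : Pol d)) ?_
  ext l
  rw [Finsupp.add_apply, xs_exp]
  simp only [Finset.mem_filter, Finset.mem_univ, true_and, Finsupp.smul_apply,
    Finsupp.mapRange_apply, smul_eq_mul]
  split_ifs with h <;> omega

/-- Two linear maps on `P_d` agreeing on all `x_S * h^2` are equal. -/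
theorem lin_ext_split {d : ℕ} {M : Type*} [AddCommMonoid M] [Module (ZMod 2) M]
    (F G : Pol d →ₗ[ZMod 2] M)
    (h : ∀ (S : Finset (Fin d)) (m : Fin d →₀ ℕ),
      F (xs S * (monomial m 1) ^ 2) = G (xs S * (monomial m 1) ^ 2)) : F = G := by
  refine (basisMonomials (Fin d) (ZMod 2)).ext fun t => ?_
  rw [coe_basisMonomials]
  change F (monomial t 1) = G (monomial t 1)
  obtain ⟨S, m, hS⟩ := monomial_split t
  rw [hS]
  exact h S m

/-- A product of linear forms over a set `S` maps to `0` under `down` if `S` is not everything. -/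
theorem down_act_xs_ne {d : ℕ} (w : Matrix (Fin d) (Fin d) (ZMod 2)) (S : Finset (Fin d))
    (hS : S ≠ Finset.univ) : down d (act w (xs S)) = 0 := by
  classical
  have h1 : (act w (xs S)).IsHomogeneous S.card := by
    apply act_homog
    have := IsHomogeneous.prod S (fun i => (X i : Pol d)) (fun _ => 1)
      (fun i _ => isHomogeneous_X _ i)
    simpa [xs] using this
  have h2 : S.card < d := by
    obtain ⟨l, hl⟩ := exists_notMem_of_ne_univ S hS
    have := Finset.card_lt_univ_of_notMem hl
    simpa using this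
  set f := act w (xs S)
  rw [f.as_sum, map_sum]
  refine Finset.sum_eq_zero fun t ht => ?_
  have e : (monomial t (coeff t f) : Pol d) = (coeff t f) • monomial t 1 := by
    rw [smul_monomial, smul_eq_mul, mul_one]
  rw [e, map_smul]
  have hdeg : t.degree = S.card := by
    have := h1 (mem_support_iff.1 ht)
    rw [← this, Finsupp.degree_eq_weight_one]
    rfl
  have : ∃ i, t i = 0 := by
    by_contra hcon
    push Not at hcon
    have h3 : d ≤ t.degree := by
      rw [Finsupp.degree_apply]
      have : ∑ i : Fin d, 1 ≤ ∑ i : Fin d, t i :=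
        Finset.sum_le_sum fun i _ => Nat.one_le_iff_ne_zero.2 (hcon i)
      have h4 : ∑ i : Fin d, t i = ∑ i ∈ t.support, t i := by
        refine (Finset.sum_subset (Finset.subset_univ _) fun i _ hi => ?_).symm
        exact Finsupp.notMem_support_iff.1 hi
      rw [← h4]
      simpa using this
    omega
  obtain ⟨i, hi⟩ := this
  rw [down_monomial_even t i (by rw [hi]; simp), smul_zero]

theorem down_act_xs_univ {d : ℕ} (w : Matrix (Fin d) (Fin d) (ZMod 2)) :
    down d (act w (xs Finset.univ)) = C w.det := by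
  classical
  have h0 : act w (xs Finset.univ) =
      ∑ p : Fin d → Fin d, (∏ j, w (p j) j) • (monomial (∑ j, Finsupp.single (p j) 1) 1 : Pol d) := by
    rw [xs, map_prod]
    rw [Finset.prod_congr rfl fun j _ => act_X w j, Finset.prod_univ_sum, Fintype.piFinset_univ]
    refine Finset.sum_congr rfl fun p _ => ?_
    rw [Finset.prod_mul_distrib, monomial_sum_one, ← map_prod, ← smul_eq_C_mul]
    rfl
  have h1 : ∀ p : Fin d → Fin d, down d (monomial (∑ j, Finsupp.single (p j) 1) 1) =
      if Function.Bijective p then 1 else 0 := by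
    intro p
    split_ifs with hp
    · have : (∑ j, Finsupp.single (p j) 1 : Fin d →₀ ℕ) = ∑ j, Finsupp.single j 1 :=
        (Equiv.ofBijective p hp).sum_comp (fun j => (Finsupp.single j 1 : Fin d →₀ ℕ))
      rw [this, ← xs_eq, down_xs_univ]
    · have : ¬ Function.Surjective p := fun hs => hp ⟨Finite.injective_iff_surjective.2 hs, hs⟩
      rw [Function.Surjective] at this
      push Not at this
      obtain ⟨l, hl⟩ := this
      rw [down_monomial_even _ l]
      rw [Finsupp.finsetSum_apply, Finset.sum_eq_zero]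
      · simp
      · intro j _
        rw [Finsupp.single_apply, if_neg (hl j)]
  rw [h0, map_sum]
  simp only [map_smul, h1]
  rw [Matrix.det_apply, map_sum]
  have h2 : ∀ σ : Equiv.Perm (Fin d), C (Equiv.Perm.sign σ • ∏ i, w (σ i) i) =
      (∏ i, w (σ i) i) • (1 : Pol d) := by
    intro σ
    have : Equiv.Perm.sign σ • ∏ i, w (σ i) i = ∏ i, w (σ i) i := by
      rcases Int.units_eq_one_or (Equiv.Perm.sign σ) with h | h
      · rw [h, one_smul]
      · rw [h]
        have h3 : ∀ x : ZMod 2, (-1 : ℤˣ) • x = x := by decide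
        exact h3 _
    rw [this, smul_eq_C_mul, mul_one]
  rw [Finset.sum_congr rfl fun σ _ => h2 σ]
  have h3 : ∀ p : Fin d → Fin d, ((∏ j, w (p j) j) • (if Function.Bijective p then 1 else 0 : Pol d))
      = if Function.Bijective p then (∏ j, w (p j) j) • (1 : Pol d) else 0 := by
    intro p
    split_ifs <;> simp
  rw [Finset.sum_congr rfl fun p _ => h3 p, ← Finset.sum_filter]
  symm
  refine Finset.sum_bij (fun σ _ => ⇑σ) ?_ ?_ ?_ ?_
  · intro σ _
    exact Finset.mem_filter.2 ⟨Finset.mem_univ _, σ.bijective⟩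
  · intro σ _ τ _ h
    exact DFunLike.coe_injective h
  · intro p hp
    have hp' : Function.Bijective p := (Finset.mem_filter.1 hp).2
    exact ⟨Equiv.ofBijective p hp', Finset.mem_univ _, rfl⟩
  · intro σ _
    rfl

theorem GL_det {d : ℕ} (g : GL (Fin d) (ZMod 2)) :
    (g : Matrix (Fin d) (Fin d) (ZMod 2)).det = 1 := by
  have h : IsUnit (g : Matrix (Fin d) (Fin d) (ZMod 2)).det := by
    have := (Matrix.isUnit_iff_isUnit_det (g : Matrix (Fin d) (Fin d) (ZMod 2))).1 g.isUnit
    exact this
  have h2 : ∀ x : ZMod 2, x ≠ 0 → x = 1 := by decide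
  exact h2 _ h.ne_zero

theorem down_act {d : ℕ} (g : GL (Fin d) (ZMod 2)) (f : Pol d) :
    down d (act (g : Matrix (Fin d) (Fin d) (ZMod 2)) f) =
      act (g : Matrix (Fin d) (Fin d) (ZMod 2)) (down d f) := by
  have key : (down d) ∘ₗ (act (g : Matrix (Fin d) (Fin d) (ZMod 2))).toLinearMap =
      (act (g : Matrix (Fin d) (Fin d) (ZMod 2))).toLinearMap ∘ₗ (down d) := by
    refine lin_ext_split _ _ fun S m => ?_
    simp only [LinearMap.comp_apply, AlgHom.toLinearMap_apply]
    rw [map_mul, map_pow, down_mul_sq, down_mul_sq, map_mul]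
    congr 1
    by_cases hS : S = Finset.univ
    · subst hS
      rw [down_act_xs_univ, GL_det, down_xs_univ, map_one, map_one]
    · obtain ⟨l, hl⟩ := exists_notMem_of_ne_univ S hS
      rw [down_act_xs_ne _ _ hS, down_xs_ne S l hl, map_zero]
  exact congrArg (fun φ : Pol d →ₗ[ZMod 2] Pol d => φ f) key

theorem sqTot_xs {d : ℕ} (S : Finset (Fin d)) :
    sqTot d (xs S) = ∑ R ∈ S.powerset,
      Polynomial.C (xs (S \ R) * (xs R) ^ 2) * Polynomial.X ^ R.card := by
  classical
  rw [xs, map_prod, Finset.prod_congr rfl fun i _ => sqTot_X d i]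
  have : ∀ i : Fin d, (Polynomial.C (X i) + Polynomial.X * Polynomial.C (X i ^ 2) :
      Polynomial (Pol d)) = Polynomial.X * Polynomial.C (X i ^ 2) + Polynomial.C (X i) :=
    fun i => add_comm _ _
  rw [Finset.prod_congr rfl fun i _ => this i, Finset.prod_add]
  refine Finset.sum_congr rfl fun R hR => ?_
  rw [Finset.prod_mul_distrib, Finset.prod_const, ← map_prod, ← map_prod, Finset.prod_pow, map_mul]
  simp only [xs]
  ring

theorem down_sq {d : ℕ} (k : ℕ) (f : Pol d) :
    down d (sq d k f) = if 2 ∣ k then sq d (k / 2) (down d f) else 0 := by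
  classical
  have key : (down d) ∘ₗ (sq d k) = if 2 ∣ k then (sq d (k / 2)) ∘ₗ (down d) else 0 := by
    refine lin_ext_split _ _ fun S m => ?_
    set h : Pol d := monomial m 1 with hh
    have e1 : ∀ b, ((sqTot d h) ^ 2).coeff b = if 2 ∣ b then ((sqTot d h).coeff (b / 2)) ^ 2 else 0 := by
      intro b
      rw [← Polynomial.map_frobenius_expand (p := 2) (R := Pol d), Polynomial.coeff_map,
        Polynomial.coeff_expand (by norm_num)]
      split_ifs
      · rfl
      · rw [map_zero]
    have e2 : sq d k (xs S * h ^ 2) = ∑ R ∈ S.powerset, ∑ q ∈ Finset.HasAntidiagonal.antidiagonal k,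
        (if q.1 = R.card then xs (S \ R) * (xs R) ^ 2 else 0) *
          (if 2 ∣ q.2 then ((sqTot d h).coeff (q.2 / 2)) ^ 2 else 0) := by
      rw [sq_apply, map_mul, map_pow, sqTot_xs, Finset.sum_mul, Polynomial.finsetSum_coeff]
      refine Finset.sum_congr rfl fun R _ => ?_
      rw [Polynomial.coeff_mul]
      refine Finset.sum_congr rfl fun q _ => ?_
      rw [Polynomial.coeff_C_mul_X_pow, e1]
    rw [LinearMap.comp_apply, e2, map_sum]
    have e3 : ∀ R ∈ S.powerset, down d (∑ q ∈ Finset.HasAntidiagonal.antidiagonal k,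
        (if q.1 = R.card then xs (S \ R) * (xs R) ^ 2 else 0) *
          (if 2 ∣ q.2 then ((sqTot d h).coeff (q.2 / 2)) ^ 2 else 0)) =
        down d (xs (S \ R)) * ∑ q ∈ Finset.HasAntidiagonal.antidiagonal k,
        (if q.1 = R.card then xs R else 0) *
          (if 2 ∣ q.2 then ((sqTot d h).coeff (q.2 / 2)) else 0) := by
      intro R _
      rw [map_sum, Finset.mul_sum]
      refine Finset.sum_congr rfl fun q _ => ?_
      by_cases h1 : q.1 = R.card
      · by_cases h2 : 2 ∣ q.2
        · simp only [if_pos h1, if_pos h2]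
          rw [down_mul_sq, down_mul_sq, mul_assoc]
        · simp only [if_pos h1, if_neg h2, mul_zero, map_zero]
      · simp only [if_neg h1, zero_mul, mul_zero, map_zero]
    rw [Finset.sum_congr rfl e3]
    rw [Finset.sum_eq_single ∅]
    · have e4 : ∑ q ∈ Finset.HasAntidiagonal.antidiagonal k,
          (if q.1 = (∅ : Finset (Fin d)).card then xs (∅ : Finset (Fin d)) else 0) *
          (if 2 ∣ q.2 then ((sqTot d h).coeff (q.2 / 2)) else 0) =
          if 2 ∣ k then (sqTot d h).coeff (k / 2) else 0 := by
        rw [Finset.sum_eq_single (0, k)]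
        · simp [xs]
        · rintro ⟨q1, q2⟩ hq hne
          have hq' := Finset.HasAntidiagonal.mem_antidiagonal.1 hq
          simp only at hq'
          have : q1 ≠ 0 := by
            rintro rfl
            apply hne
            rw [zero_add] at hq'
            rw [hq']
          simp [this]
        · intro hn
          exact absurd (Finset.HasAntidiagonal.mem_antidiagonal.2 (zero_add k)) hn
      rw [e4, Finset.sdiff_empty]
      split_ifs with hk
      · rw [LinearMap.comp_apply, down_mul_sq]
        by_cases hS : S = Finset.univ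
        · subst hS
          rw [down_xs_univ, one_mul, one_mul, sq_apply]
        · obtain ⟨l, hl⟩ := exists_notMem_of_ne_univ S hS
          rw [down_xs_ne S l hl, zero_mul, zero_mul, map_zero]
      · rw [mul_zero]
        rfl
    · intro R hR hne
      obtain ⟨l, hl⟩ := Finset.nonempty_iff_ne_empty.2 hne
      rw [down_xs_ne (S \ R) l (by simp [hl]), zero_mul]
    · intro hn
      exact absurd (Finset.empty_mem_powerset S) hn
  have h := congrArg (fun φ : Pol d →ₗ[ZMod 2] Pol d => φ f) key
  change down d (sq d k f) = (if 2 ∣ k then (sq d (k / 2)) ∘ₗ (down d) else 0 :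
    Pol d →ₗ[ZMod 2] Pol d) f at h
  rw [h]
  split_ifs <;> rfl

theorem halve_degree {d : ℕ} (t : Fin d →₀ ℕ) (h : ∀ i, Odd (t i)) :
    t.degree = d + 2 * (halve t).degree := by
  have h1 : ∀ s : Fin d →₀ ℕ, s.degree = ∑ i, s i := by
    intro s
    rw [Finsupp.degree_apply]
    exact Finset.sum_subset (Finset.subset_univ _) fun i _ hi => Finsupp.notMem_support_iff.1 hi
  rw [h1, h1, Finset.mul_sum]
  have h2 : ∀ i, t i = 1 + 2 * (halve t) i := by
    intro i
    obtain ⟨a, ha⟩ := h i
    rw [Finsupp.mapRange_apply]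
    omega
  rw [Finset.sum_congr rfl fun i _ => h2 i, Finset.sum_add_distrib]
  simp

/-- Kameko's map `P H_n → P H_(d+2n)`, transpose to `down`. -/
noncomputable def kam (d n : ℕ) : PH d n →ₗ[ZMod 2] PH d (d + 2 * n) :=
  ((down d).dualMap).restrict (p := PH d n) (q := PH d (d + 2 * n)) (by
    rintro z ⟨h1, h2⟩
    refine ⟨fun m hm f hf => ?_, fun k hk f => ?_⟩
    · refine vanish_homog _ m (fun t ht => ?_) f hf
      rw [LinearMap.dualMap_apply]
      by_cases h : ∀ i, Odd (t i)
      · rw [down_monomial_odd t h]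
        refine h1 (halve t).degree ?_ _ (isHomogeneous_monomial _ rfl)
        intro he
        apply hm
        rw [← ht, halve_degree t h, he]
      · push Not at h
        obtain ⟨i, hi⟩ := h
        rw [down_monomial_even t i hi, map_zero]
    · rw [LinearMap.dualMap_apply, down_sq]
      split_ifs with h
      · exact h2 _ (by omega) _
      · exact map_zero z)

theorem kam_apply {d n : ℕ} (z : PH d n) (f : Pol d) :
    (kam d n z : Du d) f = (z : Du d) (down d f) := rfl

theorem kam_act {d n : ℕ} (g : GL (Fin d) (ZMod 2)) (z : PH d n) :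
    kam d n (actPH n (g : Matrix _ _ _) z) = actPH (d + 2 * n) (g : Matrix _ _ _) (kam d n z) := by
  apply Subtype.ext
  apply LinearMap.ext
  intro f
  rw [kam_apply, actPH_apply, actPH_apply, kam_apply, down_act]

theorem relCo_le (d n : ℕ) : relCo d n ≤ (relCo d (d + 2 * n)).comap (kam d n) := by
  rw [relCo, Submodule.span_le]
  rintro y ⟨z, g, rfl⟩
  change kam d n (actPH n (g : Matrix _ _ _) z - z) ∈ relCo d (d + 2 * n)
  rw [LinearMap.map_sub, kam_act]
  exact Submodule.subset_span ⟨kam d n z, g, rfl⟩

/-- Kameko's squaring operation on coinvariants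
`F_2 ⊗_{GL_d} P H_n → F_2 ⊗_{GL_d} P H_(d+2n)`. -/
noncomputable def sqTilde (d n : ℕ) : Coinv d n →ₗ[ZMod 2] Coinv d (d + 2 * n) :=
  Submodule.mapQ (relCo d n) (relCo d (d + 2 * n)) (kam d n) (relCo_le d n)

end Pool.Agent.H989R3.Kameko
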