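import Pool.Agent.H989R3.Kameko.Rel

/-!
The divided power `a_i^(n)`, `n = 2^j - 1`, `j ≥ d`, is non zero in the coinvariants: an explicit
`GL_d`-invariant functional on `P H_n` built from products of linear forms.
-/

set_option autoImplicit false

namespace Pool.Agent.H989R3.Kameko

open MvPolynomial Matrix

/-- The linear form with coefficient vector `m`. -/
noncomputable def lf {d : ℕ} (m : Fin d → ZMod 2) : Pol d := ∑ i, C (m i) * X i

theorem act_lf {d : ℕ} (w : Matrix (Fin d) (Fin d) (ZMod 2)) (m : Fin d → ZMod 2) :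
    act w (lf m) = lf (w *ᵥ m) := by
  rw [lf, map_sum]
  simp only [map_mul, algHom_C, act_X, lf, Matrix.mulVec, dotProduct, map_sum, Finset.sum_mul,
    Finset.mul_sum]
  rw [Finset.sum_comm]
  refine Finset.sum_congr rfl fun i _ => Finset.sum_congr rfl fun j _ => ?_
  simp only [algebraMap_eq]
  ring

theorem sqTot_lf {d : ℕ} (m : Fin d → ZMod 2) :
    sqTot d (lf m) = Polynomial.C (lf m) + Polynomial.X * Polynomial.C ((lf m) ^ 2) := by
  have e1 : sqTot d (lf m) = ∑ i, Polynomial.C (C (m i)) *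
      (Polynomial.C (X i) + Polynomial.X * Polynomial.C (X i ^ 2)) := by
    rw [lf, map_sum]
    refine Finset.sum_congr rfl fun i _ => ?_
    rw [map_mul, algHom_C, sqTot_X]
    rfl
  rw [e1, lf, sum_pow_char 2, map_sum, map_sum, Finset.mul_sum, ← Finset.sum_add_distrib]
  refine Finset.sum_congr rfl fun i _ => ?_
  rw [mul_pow, ← C_pow, zmod2_sq, map_mul, map_mul]
  ring

theorem sq_zero {d : ℕ} (f : Pol d) : (sqTot d f).coeff 0 = f := by
  have key : (Polynomial.constantCoeff (R := Pol d)).comp (sqTot d : Pol d →+* Polynomial (Pol d)) =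
      RingHom.id (Pol d) := by
    apply MvPolynomial.ringHom_ext
    · intro r
      rw [RingHom.comp_apply, RingHom.coe_coe, algHom_C, RingHom.id_apply]
      have : (algebraMap (ZMod 2) (Polynomial (Pol d))) r = Polynomial.C (C r) := rfl
      rw [this]
      simp
    · intro i
      rw [RingHom.comp_apply, RingHom.coe_coe, sqTot_X]
      simp
  exact congrArg (fun φ : Pol d →+* Pol d => φ f) key

theorem coeff_sq_char {d : ℕ} (P : Polynomial (Pol d)) (b : ℕ) :
    (P ^ 2).coeff b = if 2 ∣ b then (P.coeff (b / 2)) ^ 2 else 0 := by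
  rw [← Polynomial.map_frobenius_expand (p := 2) (R := Pol d), Polynomial.coeff_map,
    Polynomial.coeff_expand (by norm_num)]
  split_ifs
  · rfl
  · rw [map_zero]

theorem sq_one_special {d : ℕ} (S : Pol d) (m m' : Fin d → ZMod 2) :
    sq d 1 (S ^ 2 * (lf m * lf m')) = S ^ 2 * (lf m * lf m' ^ 2 + lf m ^ 2 * lf m') := by
  rw [sq_apply, map_mul, map_pow, Polynomial.coeff_mul, antidiag1, coeff_sq_char, coeff_sq_char,
    map_mul, sqTot_lf, sqTot_lf]
  have h1 : ¬ (2 ∣ 1) := by norm_num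
  simp only [dvd_zero, if_true, if_neg h1, Nat.zero_div, sq_zero, zero_mul, add_zero]
  congr 1
  rw [Polynomial.coeff_mul, antidiag1]
  have c0 : ∀ f g : Pol d, (Polynomial.C f + Polynomial.X * Polynomial.C g).coeff 0 = f := by
    intro f g
    simp
  have c1 : ∀ f g : Pol d, (Polynomial.C f + Polynomial.X * Polynomial.C g).coeff 1 = g := by
    intro f g
    rw [Polynomial.coeff_add, Polynomial.coeff_C, if_neg one_ne_zero, zero_add]
    simp
  rw [c0, c0, c1, c1]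

/-- The vectors pairing to one with `v`. -/
noncomputable def Av {d : ℕ} (v : Fin d → ZMod 2) : Finset (Fin d → ZMod 2) :=
  Finset.univ.filter fun m => v ⬝ᵥ m = 1

theorem mem_Av {d : ℕ} (v m : Fin d → ZMod 2) : m ∈ Av v ↔ v ⬝ᵥ m = 1 := by
  simp [Av]

/-- The product of linear forms. -/
noncomputable def ff {d : ℕ} (k : ℕ) (v l : Fin d → ZMod 2) : Pol d :=
  (lf l) ^ (2 ^ k - 1) * ∏ m ∈ (Av v).erase l, (lf m) ^ (2 ^ k)

theorem ff_add {d : ℕ} (k : ℕ) (hk : 1 ≤ k) (v l l' : Fin d → ZMod 2) (hl : l ∈ Av v)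
    (hl' : l' ∈ Av v) (hne : l ≠ l') : ∃ S : Pol d, ff k v l + ff k v l' = sq d 1 S := by
  obtain ⟨κ, rfl⟩ : ∃ κ, k = κ + 1 := ⟨k - 1, by omega⟩
  set q : ℕ := 2 ^ κ - 1 with hq
  have hpos : 0 < 2 ^ κ := by positivity
  have h2 : 2 ^ (κ + 1) = 2 * q + 2 := by
    have : 2 ^ (κ + 1) = 2 * 2 ^ κ := by ring
    omega
  have h1 : 2 ^ (κ + 1) - 1 = 2 * q + 1 := by omega
  set R : Pol d := ∏ m ∈ ((Av v).erase l).erase l', (lf m) ^ (2 ^ κ) with hR
  have hR2 : ∏ m ∈ ((Av v).erase l).erase l', (lf m) ^ (2 ^ (κ + 1)) = R ^ 2 := by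
    rw [hR, ← Finset.prod_pow]
    refine Finset.prod_congr rfl fun m _ => ?_
    rw [← pow_mul, pow_succ]
  have e1 : ff (κ + 1) v l = (lf l) ^ (2 * q + 1) * ((lf l') ^ (2 * q + 2) * R ^ 2) := by
    rw [ff, ← hR2, h1, ← Finset.mul_prod_erase ((Av v).erase l) _
      (Finset.mem_erase.2 ⟨hne.symm, hl'⟩), ← h2]
  have e2 : ff (κ + 1) v l' = (lf l') ^ (2 * q + 1) * ((lf l) ^ (2 * q + 2) * R ^ 2) := by
    rw [ff, ← hR2, h1, ← Finset.mul_prod_erase ((Av v).erase l') _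
      (Finset.mem_erase.2 ⟨hne, hl⟩), ← h2, Finset.erase_right_comm]
  refine ⟨(R * (lf l * lf l') ^ q) ^ 2 * (lf l * lf l'), ?_⟩
  rw [sq_one_special, e1, e2]
  ring

theorem ff_swap {d n : ℕ} (k : ℕ) (hk : 1 ≤ k) (v l l' : Fin d → ZMod 2) (hl : l ∈ Av v)
    (hl' : l' ∈ Av v) (z : PH d n) : (z : Du d) (ff k v l) = (z : Du d) (ff k v l') := by
  by_cases hne : l = l'
  · rw [hne]
  · obtain ⟨S, hS⟩ := ff_add k hk v l l' hl hl' hne
    have h1 : (z : Du d) (ff k v l + ff k v l') = 0 := by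
      rw [hS]
      exact z.2.2 1 one_pos S
    rw [map_add] at h1
    have : ∀ x y : ZMod 2, x + y = 0 → x = y := by decide
    exact this _ _ h1

theorem exists_mem_Av {d : ℕ} (v : Fin d → ZMod 2) (hv : v ≠ 0) : ∃ l, l ∈ Av v := by
  obtain ⟨i, hi⟩ := Function.ne_iff.1 hv
  refine ⟨Pi.single i 1, ?_⟩
  rw [mem_Av, dotProduct_single, mul_one]
  have h2 : ∀ x : ZMod 2, x ≠ 0 → x = 1 := by decide
  exact h2 _ hi

/-- A chosen vector pairing to one with `v`. -/
noncomputable def ch {d : ℕ} (v : Fin d → ZMod 2) : Fin d → ZMod 2 :=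
  open Classical in if h : v ≠ 0 then (exists_mem_Av v h).choose else 0

theorem ch_mem {d : ℕ} (v : Fin d → ZMod 2) (hv : v ≠ 0) : ch v ∈ Av v := by
  rw [ch, dif_pos hv]
  exact (exists_mem_Av v hv).choose_spec

theorem act_ff {d : ℕ} (k : ℕ) (g : GL (Fin d) (ZMod 2)) (v l : Fin d → ZMod 2) :
    act (g : Matrix (Fin d) (Fin d) (ZMod 2)) (ff k v l) =
      ff k (v ᵥ* ((g⁻¹ : GL (Fin d) (ZMod 2)) : Matrix _ _ _))
        ((g : Matrix (Fin d) (Fin d) (ZMod 2)) *ᵥ l) := by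
  have hgi : ((g⁻¹ : GL (Fin d) (ZMod 2)) : Matrix (Fin d) (Fin d) (ZMod 2)) *
      (g : Matrix (Fin d) (Fin d) (ZMod 2)) = 1 := by
    rw [← Matrix.GeneralLinearGroup.coe_mul, inv_mul_cancel]
    rfl
  have hgi' : (g : Matrix (Fin d) (Fin d) (ZMod 2)) *
      ((g⁻¹ : GL (Fin d) (ZMod 2)) : Matrix (Fin d) (Fin d) (ZMod 2)) = 1 := by
    rw [← Matrix.GeneralLinearGroup.coe_mul, mul_inv_cancel]
    rfl
  have hc : ∀ m : Fin d → ZMod 2, ((g⁻¹ : GL (Fin d) (ZMod 2)) : Matrix (Fin d) (Fin d) (ZMod 2)) *ᵥ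
      ((g : Matrix (Fin d) (Fin d) (ZMod 2)) *ᵥ m) = m := by
    intro m
    rw [Matrix.mulVec_mulVec, hgi, Matrix.one_mulVec]
  have hc' : ∀ m : Fin d → ZMod 2, (g : Matrix (Fin d) (Fin d) (ZMod 2)) *ᵥ
      (((g⁻¹ : GL (Fin d) (ZMod 2)) : Matrix (Fin d) (Fin d) (ZMod 2)) *ᵥ m) = m := by
    intro m
    rw [Matrix.mulVec_mulVec, hgi', Matrix.one_mulVec]
  rw [ff, map_mul, map_pow, act_lf, map_prod, ff]
  congr 1
  refine Finset.prod_nbij' (fun m => (g : Matrix (Fin d) (Fin d) (ZMod 2)) *ᵥ m)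
    (fun m => ((g⁻¹ : GL (Fin d) (ZMod 2)) : Matrix (Fin d) (Fin d) (ZMod 2)) *ᵥ m) ?_ ?_ ?_ ?_ ?_
  · intro m hm
    rw [Finset.mem_erase, mem_Av] at hm ⊢
    refine ⟨fun h => hm.1 ?_, ?_⟩
    · rw [← hc m, h, hc]
    · rw [← Matrix.dotProduct_mulVec, hc]
      exact hm.2
  · intro m hm
    rw [Finset.mem_erase, mem_Av] at hm ⊢
    refine ⟨fun h => hm.1 ?_, ?_⟩
    · rw [← h, hc']
    · rw [Matrix.dotProduct_mulVec]
      exact hm.2
  · intro m _
    exact hc m
  · intro m _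
    exact hc' m
  · intro m _
    rw [map_pow, act_lf]

/-- The invariant functional. -/
noncomputable def Lam (d n k : ℕ) : PH d n →ₗ[ZMod 2] ZMod 2 :=
  ∑ v ∈ Finset.univ.filter (fun v : Fin d → ZMod 2 => v ≠ 0),
    (LinearMap.applyₗ (ff k v (ch v))).comp (PH d n).subtype

theorem Lam_apply (d n k : ℕ) (z : PH d n) :
    Lam d n k z = ∑ v ∈ Finset.univ.filter (fun v : Fin d → ZMod 2 => v ≠ 0),
      (z : Du d) (ff k v (ch v)) := by
  rw [Lam, LinearMap.sum_apply]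
  rfl

theorem Lam_act {d n : ℕ} (k : ℕ) (hk : 1 ≤ k) (g : GL (Fin d) (ZMod 2)) (z : PH d n) :
    Lam d n k (actPH n (g : Matrix (Fin d) (Fin d) (ZMod 2)) z) = Lam d n k z := by
  have hgi : ((g⁻¹ : GL (Fin d) (ZMod 2)) : Matrix (Fin d) (Fin d) (ZMod 2)) *
      (g : Matrix (Fin d) (Fin d) (ZMod 2)) = 1 := by
    rw [← Matrix.GeneralLinearGroup.coe_mul, inv_mul_cancel]
    rfl
  have hgi' : (g : Matrix (Fin d) (Fin d) (ZMod 2)) *
      ((g⁻¹ : GL (Fin d) (ZMod 2)) : Matrix (Fin d) (Fin d) (ZMod 2)) = 1 := by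
    rw [← Matrix.GeneralLinearGroup.coe_mul, mul_inv_cancel]
    rfl
  have hc : ∀ v : Fin d → ZMod 2, (v ᵥ* ((g⁻¹ : GL (Fin d) (ZMod 2)) :
      Matrix (Fin d) (Fin d) (ZMod 2))) ᵥ* (g : Matrix (Fin d) (Fin d) (ZMod 2)) = v := by
    intro v
    rw [Matrix.vecMul_vecMul, hgi, Matrix.vecMul_one]
  have hc' : ∀ v : Fin d → ZMod 2, (v ᵥ* (g : Matrix (Fin d) (Fin d) (ZMod 2))) ᵥ*
      ((g⁻¹ : GL (Fin d) (ZMod 2)) : Matrix (Fin d) (Fin d) (ZMod 2)) = v := by
    intro v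
    rw [Matrix.vecMul_vecMul, hgi', Matrix.vecMul_one]
  rw [Lam_apply, Lam_apply]
  have hne : ∀ v : Fin d → ZMod 2, v ≠ 0 → v ᵥ* ((g⁻¹ : GL (Fin d) (ZMod 2)) :
      Matrix (Fin d) (Fin d) (ZMod 2)) ≠ 0 := by
    intro v hv h
    apply hv
    rw [← hc v, h, Matrix.zero_vecMul]
  have hne' : ∀ v : Fin d → ZMod 2, v ≠ 0 → v ᵥ* (g : Matrix (Fin d) (Fin d) (ZMod 2)) ≠ 0 := by
    intro v hv h
    apply hv
    rw [← hc' v, h, Matrix.zero_vecMul]
  refine Finset.sum_nbij' (fun v => v ᵥ* ((g⁻¹ : GL (Fin d) (ZMod 2)) :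
      Matrix (Fin d) (Fin d) (ZMod 2))) (fun v => v ᵥ* (g : Matrix (Fin d) (Fin d) (ZMod 2)))
      ?_ ?_ ?_ ?_ ?_
  · intro v hv
    exact Finset.mem_filter.2 ⟨Finset.mem_univ _, hne v (Finset.mem_filter.1 hv).2⟩
  · intro v hv
    exact Finset.mem_filter.2 ⟨Finset.mem_univ _, hne' v (Finset.mem_filter.1 hv).2⟩
  · intro v _
    exact hc v
  · intro v _
    exact hc' v
  · intro v hv
    have hv0 : v ≠ 0 := (Finset.mem_filter.1 hv).2
    rw [actPH_apply, act_ff]
    refine ff_swap k hk _ _ _ ?_ (ch_mem _ (hne v hv0)) z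
    have := ch_mem v hv0
    rw [mem_Av] at this ⊢
    rw [← Matrix.dotProduct_mulVec, Matrix.mulVec_mulVec, hgi, Matrix.one_mulVec]
    exact this

theorem Lam_relCo {d n : ℕ} (k : ℕ) (hk : 1 ≤ k) (y : PH d n) (hy : y ∈ relCo d n) :
    Lam d n k y = 0 := by
  have h : relCo d n ≤ LinearMap.ker (Lam d n k) := by
    rw [relCo, Submodule.span_le]
    rintro y ⟨z, g, rfl⟩
    change actPH n (g : Matrix _ _ _) z - z ∈ LinearMap.ker (Lam d n k)
    rw [LinearMap.mem_ker, LinearMap.map_sub, Lam_act k hk, sub_self]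
  exact LinearMap.mem_ker.1 (h hy)

theorem card_Av {d : ℕ} (v : Fin d → ZMod 2) (hv : v ≠ 0) : 2 * (Av v).card = 2 ^ d := by
  classical
  obtain ⟨l, hl⟩ := exists_mem_Av v hv
  rw [mem_Av] at hl
  have h1 : (Av v).card = (Finset.univ.filter fun m : Fin d → ZMod 2 => ¬ (v ⬝ᵥ m = 1)).card := by
    refine Finset.card_nbij' (fun m => m + l) (fun m => m + l) ?_ ?_ ?_ ?_
    · intro m hm
      have hm' : v ⬝ᵥ m = 1 := (mem_Av v m).1 (by simpa using hm)
      simp only [Finset.coe_filter, Finset.mem_univ, true_and, Set.mem_ofPred_eq]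
      rw [dotProduct_add, hl, hm']
      decide
    · intro m hm
      have hm' : ¬ (v ⬝ᵥ m = 1) := by simpa using hm
      have h2 : ∀ x : ZMod 2, ¬ (x = 1) → x + 1 = 1 := by decide
      rw [Finset.mem_coe, mem_Av, dotProduct_add, hl]
      exact h2 _ hm'
    · intro m _
      have h2 : ∀ x : ZMod 2, x + x = 0 := by decide
      ext i
      simp only [Pi.add_apply]
      rw [add_assoc, h2, add_zero]
    · intro m _
      have h2 : ∀ x : ZMod 2, x + x = 0 := by decide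
      ext i
      simp only [Pi.add_apply]
      rw [add_assoc, h2, add_zero]
  have h2 := Finset.card_filter_add_card_filter_not (s := (Finset.univ : Finset (Fin d → ZMod 2)))
    (fun m => v ⬝ᵥ m = 1)
  have h3 : (Finset.univ : Finset (Fin d → ZMod 2)).card = 2 ^ d := by
    rw [Finset.card_univ, Fintype.card_fun, ZMod.card, Fintype.card_fin]
  rw [h3] at h2
  have h4 : (Finset.univ.filter fun m : Fin d → ZMod 2 => v ⬝ᵥ m = 1).card = (Av v).card := rfl
  rw [h4, ← h1] at h2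
  omega

theorem lf_homog {d : ℕ} (m : Fin d → ZMod 2) : (lf m).IsHomogeneous 1 := by
  refine IsHomogeneous.sum _ _ _ fun i _ => ?_
  have := (isHomogeneous_C (Fin d) (m i)).mul (isHomogeneous_X (ZMod 2) i)
  simpa using this

theorem ff_homog {d : ℕ} (k : ℕ) (v l : Fin d → ZMod 2) (hv : v ≠ 0)
    (hl : l ∈ Av v) : (ff k v l).IsHomogeneous (2 ^ (d - 1 + k) - 1) := by
  have h1 : ((lf l) ^ (2 ^ k - 1)).IsHomogeneous (2 ^ k - 1) := by
    have := (lf_homog l).pow (2 ^ k - 1)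
    simpa using this
  have h2 : (∏ m ∈ (Av v).erase l, (lf m) ^ (2 ^ k)).IsHomogeneous
      (∑ m ∈ (Av v).erase l, 2 ^ k) := by
    refine IsHomogeneous.prod _ _ _ fun m _ => ?_
    have := (lf_homog m).pow (2 ^ k)
    simpa using this
  have h3 := h1.mul h2
  have hc := card_Av v hv
  have hd : 1 ≤ d := by
    obtain ⟨i, _⟩ := Function.ne_iff.1 hv
    exact Nat.one_le_iff_ne_zero.2 (by rintro rfl; exact i.elim0)
  have hcard : (Av v).card = 2 ^ (d - 1) := by
    have : 2 ^ d = 2 * 2 ^ (d - 1) := by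
      rw [← pow_succ']
      congr 1
      omega
    omega
  have h4 : 2 ^ k - 1 + ∑ m ∈ (Av v).erase l, 2 ^ k = 2 ^ (d - 1 + k) - 1 := by
    rw [Finset.sum_const, Finset.card_erase_of_mem hl, hcard, smul_eq_mul, pow_add]
    obtain ⟨a, ha⟩ : ∃ a, 2 ^ (d - 1) = a + 1 := ⟨2 ^ (d - 1) - 1, by
      have : 0 < 2 ^ (d - 1) := by positivity
      omega⟩
    rw [ha]
    have hb : 0 < 2 ^ k := by positivity
    have : (a + 1) * 2 ^ k = a * 2 ^ k + 2 ^ k := by ring
    rw [this]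
    have : a + 1 - 1 = a := by omega
    rw [this]
    omega
  rw [← h4]
  exact h3

theorem coeff_eq_eval {d : ℕ} (i0 : Fin d) (n : ℕ) (f : Pol d) (hf : f.IsHomogeneous n) :
    Zc (sg i0 n) f = eval (Pi.single i0 1) f := by
  classical
  have key : ∀ t ∈ f.support, Zc (sg i0 n) (monomial t (coeff t f)) =
      eval (Pi.single i0 1) (monomial t (coeff t f)) := by
    intro t ht
    have hdeg : t.degree = n := by
      have := hf (mem_support_iff.1 ht)
      rw [← this, Finsupp.degree_eq_weight_one]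
      rfl
    rw [Zc_apply, coeff_monomial, eval_monomial]
    by_cases h : ∀ i, i ≠ i0 → t i = 0
    · have h1 : t = sg i0 n := by
        have h2 : t = Finsupp.single i0 (t i0) := by
          ext i
          by_cases hi : i = i0
          · subst hi
            simp
          · rw [h i hi, Finsupp.single_apply, if_neg (fun h => hi h.symm)]
        rw [h2, Finsupp.degree_single] at hdeg
        rw [h2, hdeg]
      rw [if_pos h1, h1, Finsupp.prod_single_index (by simp)]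
      simp
    · push Not at h
      obtain ⟨i, hi, hti⟩ := h
      rw [if_neg]
      · have : (t.prod fun n e => (Pi.single i0 1 : Fin d → ZMod 2) n ^ e) = 0 := by
          refine Finset.prod_eq_zero (Finsupp.mem_support_iff.2 hti) ?_
          simp only [Pi.single_apply, if_neg hi]
          exact zero_pow hti
        rw [this, mul_zero]
      · rintro rfl
        apply hti
        rw [Finsupp.single_apply, if_neg (fun h => hi h.symm)]
  conv_lhs => rw [f.as_sum]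
  conv_rhs => rw [f.as_sum]
  rw [map_sum, map_sum]
  exact Finset.sum_congr rfl key

theorem eval_lf {d : ℕ} (i0 : Fin d) (m : Fin d → ZMod 2) :
    eval (Pi.single i0 1) (lf m) = m i0 := by
  classical
  rw [lf, map_sum, Finset.sum_eq_single i0]
  · simp
  · intro i _ hi
    simp [hi]
  · simp

theorem eval_ff_self {d : ℕ} (k : ℕ) (i0 : Fin d) (l : Fin d → ZMod 2)
    (hl : l ∈ Av (Pi.single i0 1 : Fin d → ZMod 2)) :
    eval (Pi.single i0 1) (ff k (Pi.single i0 1) l) = 1 := by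
  classical
  have h : ∀ m : Fin d → ZMod 2, m ∈ Av (Pi.single i0 1 : Fin d → ZMod 2) → m i0 = 1 := by
    intro m hm
    rw [mem_Av, single_dotProduct, one_mul] at hm
    exact hm
  rw [ff, map_mul, map_pow, eval_lf, h l hl, one_pow, one_mul, map_prod]
  refine Finset.prod_eq_one fun m hm => ?_
  rw [map_pow, eval_lf, h m (Finset.mem_of_mem_erase hm), one_pow]

theorem eval_ff_ne {d : ℕ} (k : ℕ) (hk : 1 ≤ k) (i0 : Fin d) (v l : Fin d → ZMod 2)
    (hv : v ≠ 0) (hv' : v ≠ Pi.single i0 1) :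
    eval (Pi.single i0 1) (ff k v l) = 0 := by
  classical
  have h2 : ∀ x : ZMod 2, x ≠ 0 → x = 1 := by decide
  have hex : ∃ i, i ≠ i0 ∧ v i ≠ 0 := by
    by_contra hcon
    push Not at hcon
    have h3 : v i0 ≠ 0 := by
      intro h0
      apply hv
      ext i
      by_cases hi : i = i0
      · rw [hi, h0]
        rfl
      · rw [hcon i hi]
        rfl
    apply hv'
    ext i
    by_cases hi : i = i0
    · rw [hi, h2 _ h3, Pi.single_eq_same]
    · rw [hcon i hi, Pi.single_eq_of_ne hi]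
  obtain ⟨i, hi, hvi⟩ := hex
  have hm : (Pi.single i 1 : Fin d → ZMod 2) ∈ Av v := by
    rw [mem_Av, dotProduct_single, mul_one, h2 _ hvi]
  have hm0 : (Pi.single i 1 : Fin d → ZMod 2) i0 = 0 := Pi.single_eq_of_ne hi.symm 1
  have hpow : 2 ≤ 2 ^ k := by
    calc 2 = 2 ^ 1 := (pow_one 2).symm
      _ ≤ 2 ^ k := Nat.pow_le_pow_right (by norm_num) hk
  rw [ff, map_mul, map_pow, eval_lf]
  by_cases hl : (Pi.single i 1 : Fin d → ZMod 2) = l
  · rw [← hl, hm0, zero_pow (by omega), zero_mul]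
  · rw [map_prod, Finset.prod_eq_zero (Finset.mem_erase.2 ⟨hl, hm⟩), mul_zero]
    rw [map_pow, eval_lf, hm0, zero_pow (by omega)]

theorem Lam_Z {d n : ℕ} (k : ℕ) (hk : 1 ≤ k) (hn : n = 2 ^ (d - 1 + k) - 1) (i0 : Fin d)
    (z : PH d n) (hz : (z : Du d) = Zc (sg i0 n)) :
    Lam d n k z = 1 := by
  classical
  have h1 : ∀ v ∈ Finset.univ.filter (fun v : Fin d → ZMod 2 => v ≠ 0),
      (z : Du d) (ff k v (ch v)) = eval (Pi.single i0 1) (ff k v (ch v)) := by
    intro v hv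
    have hv0 : v ≠ 0 := (Finset.mem_filter.1 hv).2
    have h2 := ff_homog k v (ch v) hv0 (ch_mem v hv0)
    rw [← hn] at h2
    rw [hz]
    exact coeff_eq_eval i0 _ _ h2
  have hs : (Pi.single i0 1 : Fin d → ZMod 2) ≠ 0 := by
    intro h
    have := congrFun h i0
    rw [Pi.single_eq_same] at this
    exact one_ne_zero this
  have h3 : ∀ v ∈ Finset.univ.filter (fun v : Fin d → ZMod 2 => v ≠ 0), v ≠ Pi.single i0 1 →
      eval (Pi.single i0 1) (ff k v (ch v)) = 0 := by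
    intro v hv hne
    exact eval_ff_ne k hk i0 v (ch v) (Finset.mem_filter.1 hv).2 hne
  have h4 : (Pi.single i0 1 : Fin d → ZMod 2) ∈
      Finset.univ.filter (fun v : Fin d → ZMod 2 => v ≠ 0) :=
    Finset.mem_filter.2 ⟨Finset.mem_univ _, hs⟩
  rw [Lam_apply, Finset.sum_congr rfl h1, Finset.sum_eq_single_of_mem _ h4 h3]
  exact eval_ff_self k i0 _ (ch_mem _ hs)

/-- The class of `a_i^(n)` in the coinvariants is non zero for `n = 2^(d-1+k) - 1`, `k ≥ 1`. -/
theorem nonvan {d n : ℕ} (k : ℕ) (hk : 1 ≤ k) (hn : n = 2 ^ (d - 1 + k) - 1) (i0 : Fin d)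
    (z : PH d n) (hz : (z : Du d) = Zc (sg i0 n)) : z ∉ relCo d n := by
  intro h
  have h1 := Lam_relCo k hk z h
  rw [Lam_Z k hk hn i0 z hz] at h1
  exact one_ne_zero h1

end Pool.Agent.H989R3.Kameko
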