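import Pool.Agent.H989R3.Kameko.Down
import Pool.Agent.H989R3.Kameko.Nonvan

/-!
Kameko's squaring operation on the coinvariants is not injective for every rank `d ≥ 5`
in the degrees `2^j - 1`, `j ≥ d`.
-/

set_option autoImplicit false

namespace Pool.Agent.H989R3.Kameko

open MvPolynomial

/-- The exponent `2 s + 1`. -/
noncomputable def dbl {d : ℕ} (s : Fin d →₀ ℕ) : Fin d →₀ ℕ :=
  Finsupp.equivFunOnFinite.symm fun i => 2 * s i + 1

theorem dbl_apply {d : ℕ} (s : Fin d →₀ ℕ) (i : Fin d) : dbl s i = 2 * s i + 1 := rfl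

/-- Kameko's map sends the divided power monomial with exponents `s` to the one with exponents
`2 s + 1`. -/
theorem Zc_down {d : ℕ} (s : Fin d →₀ ℕ) (f : Pol d) : Zc s (down d f) = Zc (dbl s) f := by
  classical
  have key : (Zc s) ∘ₗ (down d) = Zc (dbl s) := by
    refine du_ext fun r => ?_
    rw [LinearMap.comp_apply, Zc_monomial]
    by_cases h : ∀ i, Odd (r i)
    · rw [down_monomial_odd r h, Zc_monomial]
      have : halve r = s ↔ r = dbl s := by
        constructor
        · rintro rfl
          ext i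
          obtain ⟨a, ha⟩ := h i
          rw [dbl_apply, Finsupp.mapRange_apply]
          omega
        · rintro rfl
          ext i
          rw [Finsupp.mapRange_apply, dbl_apply]
          omega
      simp only [this]
    · rw [if_neg]
      · push Not at h
        obtain ⟨i, hi⟩ := h
        rw [down_monomial_even r i hi, map_zero]
      · rintro rfl
        apply h
        intro i
        exact ⟨s i, dbl_apply s i⟩
  exact congrArg (fun φ : Du d => φ f) key

theorem degree_eq_sum {d : ℕ} (s : Fin d →₀ ℕ) : s.degree = ∑ i, s i := by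
  rw [Finsupp.degree_apply]
  exact Finset.sum_subset (Finset.subset_univ _) fun i _ hi => Finsupp.notMem_support_iff.1 hi

theorem degree_dbl {d : ℕ} (s : Fin d →₀ ℕ) : (dbl s).degree = d + 2 * s.degree := by
  rw [degree_eq_sum, degree_eq_sum, Finset.mul_sum]
  simp only [dbl_apply]
  rw [Finset.sum_add_distrib]
  simp [add_comm]

/-- The kernel statement: a divided power monomial whose exponents are all of the form `2^j - 1`
and which does not involve four of the variables is mapped to zero in the coinvariants. -/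
theorem kernel {d n : ℕ} (s : Fin d →₀ ℕ) (hs : ∀ i, ∃ j : ℕ, s i = 2 ^ j - 1)
    (hn : s.degree = n) (a b c e : Fin d)
    (hab : a ≠ b) (hac : a ≠ c) (hae : a ≠ e) (hbc : b ≠ c) (hbe : b ≠ e) (hce : c ≠ e)
    (ha : s a = 0) (hb : s b = 0) (hc : s c = 0) (he : s e = 0)
    (z : PH d n) (hz : (z : Du d) = Zc s) :
    kam d n z ∈ relCo d (d + 2 * n) := by
  classical
  set base : Fin d →₀ ℕ := Finsupp.equivFunOnFinite.symm
    (fun i => if i = a ∨ i = b ∨ i = c ∨ i = e then 0 else 2 * s i + 1) with hbase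
  have hb0 : ∀ i, base i = if i = a ∨ i = b ∨ i = c ∨ i = e then 0 else 2 * s i + 1 := fun i => rfl
  have hform : ∀ i, ∃ j : ℕ, base i = 2 ^ j - 1 := by
    intro i
    rw [hb0]
    split_ifs
    · exact ⟨0, rfl⟩
    · obtain ⟨j, hj⟩ := hs i
      refine ⟨j + 1, ?_⟩
      have : 2 ^ (j + 1) = 2 * 2 ^ j := by ring
      have hp : 0 < 2 ^ j := by positivity
      omega
  have ea : base a = 0 := by rw [hb0, if_pos (by simp)]
  have eb : base b = 0 := by rw [hb0, if_pos (by simp)]
  have ec : base c = 0 := by rw [hb0, if_pos (by simp)]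
  have ee : base e = 0 := by rw [hb0, if_pos (by simp)]
  have hdbl : dbl s = base + sg a 1 + sg b 1 + sg c 1 + sg e 1 := by
    ext i
    rw [dbl_apply]
    simp only [Finsupp.add_apply, Finsupp.single_apply, hb0]
    by_cases h1 : i = a
    · subst h1
      simp [ha, hab.symm, hac.symm, hae.symm]
    · by_cases h2 : i = b
      · subst h2
        simp [hb, hab, hbc.symm, hbe.symm]
      · by_cases h3 : i = c
        · subst h3
          simp [hc, hac, hbc, hce.symm]
        · by_cases h4 : i = e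
          · subst h4
            simp [he, hae, hbe, hce]
          · simp [h1, h2, h3, h4, Ne.symm h1, Ne.symm h2, Ne.symm h3, Ne.symm h4]
  have hdeg : base.degree + 4 = d + 2 * n := by
    have h1 := degree_dbl s
    rw [hn, hdbl] at h1
    simp only [map_add, Finsupp.degree_single] at h1
    omega
  -- membership
  have mem : ∀ (x y : Fin d) (hxy : x ≠ y) (hx : base x = 0) (hy : base y = 0),
      Zc (base + sg x 1 + sg y 3) ∈ PH d (d + 2 * n) := by
    intro x y hxy hx hy
    refine Zc_mem _ (fun i => ?_) ?_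
    · by_cases h1 : i = x
      · subst h1
        refine ⟨1, ?_⟩
        simp [hx, hxy]
      · by_cases h2 : i = y
        · subst h2
          refine ⟨2, ?_⟩
          simp [hy, hxy]
        · obtain ⟨j, hj⟩ := hform i
          refine ⟨j, ?_⟩
          simp only [Finsupp.add_apply, Finsupp.single_apply, if_neg (Ne.symm h1),
            if_neg (Ne.symm h2), add_zero]
          exact hj
    · simp only [map_add, Finsupp.degree_single]
      omega
  refine rel_general base a b c e hab hac hae hbc hbe hce ea eb ec ee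
    ⟨_, mem e a hae.symm ee ea⟩ ⟨_, mem e b hbe.symm ee eb⟩ ⟨_, mem a c hac ea ec⟩ _ rfl rfl ?_ ?_
  · have : base + sg a 1 + sg c 3 = base + sg c 3 + sg a 1 := by abel
    exact congrArg Zc this
  · apply LinearMap.ext
    intro f
    rw [kam_apply, hz, Zc_down, hdbl]

/-- In every rank `d ≥ 5` Kameko's squaring operation on the coinvariants is not injective in the
degrees `2^j - 1`, `j ≥ d`. -/
theorem not_injective (d : ℕ) (hd : 5 ≤ d) (j : ℕ) (hj : d ≤ j) :
    ¬ Function.Injective (sqTilde d (2 ^ j - 1)) := by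
  classical
  intro hinj
  generalize hn : 2 ^ j - 1 = n at hinj
  let i0 : Fin d := ⟨0, by omega⟩
  let a : Fin d := ⟨1, by omega⟩
  let b : Fin d := ⟨2, by omega⟩
  let c : Fin d := ⟨3, by omega⟩
  let e : Fin d := ⟨4, by omega⟩
  have hne : ∀ (x y : ℕ) (hx : x < d) (hy : y < d), x ≠ y → (⟨x, hx⟩ : Fin d) ≠ ⟨y, hy⟩ := by
    intro x y hx hy hxy h
    exact hxy (Fin.mk.inj_iff.1 h)
  have hform : ∀ i, ∃ j : ℕ, (sg i0 n) i = 2 ^ j - 1 := by
    intro i
    rw [Finsupp.single_apply]
    split_ifs
    · exact ⟨j, hn.symm⟩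
    · exact ⟨0, rfl⟩
  have hdeg : (sg i0 n).degree = n := Finsupp.degree_single _ _
  have hz : ∀ x : Fin d, i0 ≠ x → (sg i0 n) x = 0 := by
    intro x hx
    rw [Finsupp.single_apply, if_neg hx]
  let z : PH d n := ⟨Zc (sg i0 n), Zc_mem _ hform hdeg⟩
  have hker := kernel (sg i0 n) hform hdeg a b c e (hne _ _ _ _ (by norm_num))
    (hne _ _ _ _ (by norm_num)) (hne _ _ _ _ (by norm_num)) (hne _ _ _ _ (by norm_num))
    (hne _ _ _ _ (by norm_num)) (hne _ _ _ _ (by norm_num)) (hz a (hne _ _ _ _ (by norm_num)))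
    (hz b (hne _ _ _ _ (by norm_num))) (hz c (hne _ _ _ _ (by norm_num)))
    (hz e (hne _ _ _ _ (by norm_num))) z rfl
  have h1 : sqTilde d n (Submodule.Quotient.mk z) = sqTilde d n 0 := by
    rw [map_zero, sqTilde, Submodule.mapQ_apply, Submodule.Quotient.mk_eq_zero]
    exact hker
  have h2 := hinj h1
  rw [Submodule.Quotient.mk_eq_zero] at h2
  refine nonvan (j - (d - 1)) (by omega) ?_ i0 z rfl h2
  rw [← hn]
  congr 2
  omega

/-- In every rank `d ≥ 4` Kameko's squaring operation on the coinvariants is zero, and hence not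
injective, in degree `0`. -/
theorem not_injective_zero (d : ℕ) (hd : 4 ≤ d) : ¬ Function.Injective (sqTilde d 0) := by
  classical
  intro hinj
  let a : Fin d := ⟨0, by omega⟩
  let b : Fin d := ⟨1, by omega⟩
  let c : Fin d := ⟨2, by omega⟩
  let e : Fin d := ⟨3, by omega⟩
  have hne : ∀ (x y : ℕ) (hx : x < d) (hy : y < d), x ≠ y → (⟨x, hx⟩ : Fin d) ≠ ⟨y, hy⟩ := by
    intro x y hx hy hxy h
    exact hxy (Fin.mk.inj_iff.1 h)
  have hform : ∀ i, ∃ j : ℕ, (0 : Fin d →₀ ℕ) i = 2 ^ j - 1 := fun i => ⟨0, rfl⟩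
  have hdeg : (0 : Fin d →₀ ℕ).degree = 0 := map_zero _
  let z : PH d 0 := ⟨Zc 0, Zc_mem _ hform hdeg⟩
  have hker := kernel 0 hform hdeg a b c e (hne _ _ _ _ (by norm_num))
    (hne _ _ _ _ (by norm_num)) (hne _ _ _ _ (by norm_num)) (hne _ _ _ _ (by norm_num))
    (hne _ _ _ _ (by norm_num)) (hne _ _ _ _ (by norm_num)) rfl rfl rfl rfl z rfl
  have h1 : sqTilde d 0 (Submodule.Quotient.mk z) = sqTilde d 0 0 := by
    rw [map_zero, sqTilde, Submodule.mapQ_apply, Submodule.Quotient.mk_eq_zero]
    exact hker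
  have h2 := hinj h1
  rw [Submodule.Quotient.mk_eq_zero] at h2
  let ev : PH d 0 →ₗ[ZMod 2] ZMod 2 := (LinearMap.applyₗ (1 : Pol d)).comp (PH d 0).subtype
  have h3 : relCo d 0 ≤ LinearMap.ker ev := by
    rw [relCo, Submodule.span_le]
    rintro y ⟨w, g, rfl⟩
    change actPH 0 (g : Matrix _ _ _) w - w ∈ LinearMap.ker ev
    rw [LinearMap.mem_ker, LinearMap.map_sub]
    change (w : Du d) (act (g : Matrix _ _ _) 1) - (w : Du d) 1 = 0
    rw [map_one, sub_self]
  have h4 : ev z = 0 := LinearMap.mem_ker.1 (h3 h2)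
  have h5 : ev z = 1 := by
    change Zc 0 (1 : Pol d) = 1
    rw [Zc_apply, coeff_zero_one]
  rw [h5] at h4
  exact one_ne_zero h4

end Pool.Agent.H989R3.Kameko
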