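import Pool.Agent.H989R3.Kameko.Transv

/-!
The relation: for pairwise distinct indices `a, b, c, e` outside the support of `base`, the element
`Z(base + a + b + c + e)` of `P H` vanishes in the coinvariants.
-/

set_option autoImplicit false

namespace Pool.Agent.H989R3.Kameko

open MvPolynomial

/-- The transvection as an element of the general linear group. -/
noncomputable def tvGL {d : ℕ} (i j : Fin d) (hij : i ≠ j) : GL (Fin d) (ZMod 2) :=
  Matrix.GeneralLinearGroup.mkOfDetNeZero (tv i j) (by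
    rw [tv, Matrix.det_transvection_of_ne i j hij]
    exact one_ne_zero)

theorem tvGL_coe {d : ℕ} (i j : Fin d) (hij : i ≠ j) :
    ((tvGL i j hij : GL (Fin d) (ZMod 2)) : Matrix (Fin d) (Fin d) (ZMod 2)) = tv i j := rfl

theorem sub_mem_relCo {d n : ℕ} (z : PH d n) (i j : Fin d) (hij : i ≠ j) :
    actPH n (tv i j) z - z ∈ relCo d n :=
  Submodule.subset_span ⟨z, tvGL i j hij, by rw [tvGL_coe]⟩

theorem antidiag1 {M : Type*} [AddCommMonoid M] (F : ℕ × ℕ → M) :
    ∑ q ∈ Finset.HasAntidiagonal.antidiagonal 1, F q = F (0, 1) + F (1, 0) := by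
  rw [Finset.Nat.sum_antidiagonal_eq_sum_range_succ_mk]
  simp [Finset.sum_range_succ]

theorem antidiag2 {M : Type*} [AddCommMonoid M] (F : ℕ × ℕ → M) :
    ∑ q ∈ Finset.HasAntidiagonal.antidiagonal 2, F q = F (0, 2) + F (1, 1) + F (2, 0) := by
  rw [Finset.Nat.sum_antidiagonal_eq_sum_range_succ_mk]
  simp [Finset.sum_range_succ]

theorem antidiag3 {M : Type*} [AddCommMonoid M] (F : ℕ × ℕ → M) :
    ∑ q ∈ Finset.HasAntidiagonal.antidiagonal 3, F q =
      F (0, 3) + F (1, 2) + F (2, 1) + F (3, 0) := by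
  rw [Finset.Nat.sum_antidiagonal_eq_sum_range_succ_mk]
  simp [Finset.sum_range_succ]

theorem rel_general {d n : ℕ} (base : Fin d →₀ ℕ) (a b c e : Fin d)
    (hab : a ≠ b) (hac : a ≠ c) (hae : a ≠ e) (hbc : b ≠ c) (hbe : b ≠ e) (hce : c ≠ e)
    (ha : base a = 0) (hb : base b = 0) (hc : base c = 0) (he : base e = 0)
    (A B D : PH d n) (Y : PH d n)
    (hA : (A : Du d) = Zc (base + sg e 1 + sg a 3))
    (hB : (B : Du d) = Zc (base + sg e 1 + sg b 3))
    (hD : (D : Du d) = Zc (base + sg c 3 + sg a 1))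
    (hY : (Y : Du d) = Zc (base + sg a 1 + sg b 1 + sg c 1 + sg e 1)) :
    Y ∈ relCo d n := by
  set u : PH d n := actPH n (tv a b) A - A - B with hu
  have hmem : (actPH n (tv b c) u - u) + (actPH n (tv a c) A - A) -
      (actPH n (tv a e) D - D) ∈ relCo d n :=
    Submodule.sub_mem _ (Submodule.add_mem _ (sub_mem_relCo u b c hbc) (sub_mem_relCo A a c hac))
      (sub_mem_relCo D a e hae)
  have two : ∀ x : ZMod 2, x + x = 0 := by decide
  have hA' : ∀ f, (A : Du d) f = Zc (base + sg e 1 + sg a 3) f := fun f => by rw [hA]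
  have hB' : ∀ f, (B : Du d) f = Zc (base + sg e 1 + sg b 3) f := fun f => by rw [hB]
  have hD' : ∀ f, (D : Du d) f = Zc (base + sg c 3 + sg a 1) f := fun f => by rw [hD]
  -- the element `u`
  have hu' : ∀ f, (u : Du d) f =
      Zc (base + sg e 1 + sg a 1 + sg b 2) f + Zc (base + sg e 1 + sg a 2 + sg b 1) f := by
    intro f
    have h1 : (u : Du d) f = (A : Du d) (act (tv a b) f) - (A : Du d) f - (B : Du d) f := by
      rw [hu]
      rfl
    rw [h1, hA', hA', hB', transv a b hab (base + sg e 1) (by simp [ha, hae]) (by simp [hb, hbe]) 3,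
      antidiag3]
    simp only [Finsupp.single_zero, add_zero]
    ring
  have hAc : ∀ f, (A : Du d) (act (tv a c) f) - (A : Du d) f =
      Zc (base + sg e 1 + sg c 3) f + Zc (base + sg e 1 + sg a 1 + sg c 2) f +
        Zc (base + sg e 1 + sg a 2 + sg c 1) f := by
    intro f
    rw [hA', hA', transv a c hac (base + sg e 1) (by simp [ha, hae]) (by simp [hc, hce]) 3,
      antidiag3]
    simp only [Finsupp.single_zero, add_zero]
    ring
  have hDe : ∀ f, (D : Du d) (act (tv a e) f) - (D : Du d) f = Zc (base + sg c 3 + sg e 1) f := by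
    intro f
    rw [hD', hD', transv a e hae (base + sg c 3) (by simp [ha, hac]) (by simp [he, hce.symm]) 1,
      antidiag1]
    simp only [Finsupp.single_zero, add_zero]
    ring
  have hub : ∀ f, (u : Du d) (act (tv b c) f) - (u : Du d) f =
      Zc (base + sg e 1 + sg a 1 + sg c 2) f + Zc (base + sg e 1 + sg a 1 + sg b 1 + sg c 1) f +
        Zc (base + sg e 1 + sg a 2 + sg c 1) f := by
    intro f
    rw [hu', hu',
      transv b c hbc (base + sg e 1 + sg a 1) (by simp [hb, hab, hbe]) (by simp [hc, hac, hce]) 2,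
      transv b c hbc (base + sg e 1 + sg a 2) (by simp [hb, hab, hbe]) (by simp [hc, hac, hce]) 1,
      antidiag2, antidiag1]
    simp only [Finsupp.single_zero, add_zero]
    ring
  have hYeq : Y = (actPH n (tv b c) u - u) + (actPH n (tv a c) A - A) -
      (actPH n (tv a e) D - D) := by
    apply Subtype.ext
    apply LinearMap.ext
    intro f
    have h1 : ((((actPH n (tv b c) u - u) + (actPH n (tv a c) A - A) -
      (actPH n (tv a e) D - D) : PH d n)) : Du d) f =
        ((u : Du d) (act (tv b c) f) - (u : Du d) f) + ((A : Du d) (act (tv a c) f) - (A : Du d) f)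
        - ((D : Du d) (act (tv a e) f) - (D : Du d) f) := rfl
    rw [h1, hub, hAc, hDe, hY]
    have e1 : base + sg c 3 + sg e 1 = base + sg e 1 + sg c 3 := by
      rw [add_assoc, add_assoc, add_comm (sg c 3)]
    have e2 : base + sg a 1 + sg b 1 + sg c 1 + sg e 1 = base + sg e 1 + sg a 1 + sg b 1 + sg c 1 := by
      abel
    rw [e1, e2]
    have t1 := two (Zc (base + sg e 1 + sg a 1 + sg c 2) f)
    have t2 := two (Zc (base + sg e 1 + sg a 2 + sg c 1) f)
    linear_combination (-1 : ZMod 2) * t1 + (-1 : ZMod 2) * t2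
  rw [hYeq]
  exact hmem

end Pool.Agent.H989R3.Kameko
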