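import Pool.Agent.H989R3.Kameko.Final

/-!
Kameko's squaring operation on the coinvariants as a map between quotient sets.
-/

set_option autoImplicit false

namespace Pool.Agent.H989R3.Kameko

open MvPolynomial

/-- `z` is an element of `P H_n`: a linear functional on `P_d` which vanishes on homogeneous
polynomials of degree different from `n` and on all `Sq^k f`, `k > 0`. -/
def IsPrim (d n : ℕ) (z : Du d) : Prop :=
  (∀ m, m ≠ n → ∀ f : Pol d, f.IsHomogeneous m → z f = 0) ∧
    ∀ k, 0 < k → ∀ f : Pol d, z ((sqTot d f).coeff k) = 0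

/-- The set `P H_n`. -/
def PHn (d n : ℕ) : Type := {z : Du d // IsPrim d n z}

/-- The right action of a matrix on functionals. -/
noncomputable def rAct {d : ℕ} (w : Matrix (Fin d) (Fin d) (ZMod 2)) (z : Du d) : Du d :=
  z.comp (act w).toLinearMap

/-- The subgroup generated by all `u g - u`, `u` in `P H_n`, `g` in `GL_d(F_2)`. -/
noncomputable def relGrp (d n : ℕ) : AddSubgroup (Du d) :=
  AddSubgroup.closure {y | ∃ (u : Du d) (g : GL (Fin d) (ZMod 2)),
    IsPrim d n u ∧ y = rAct g.val u - u}

/-- Two elements of `P H_n` are related if their difference lies in the subgroup generated by all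
`u g - u`. -/
def CoRel (d n : ℕ) (z w : PHn d n) : Prop := z.val - w.val ∈ relGrp d n

/-- The coinvariants `F_2 ⊗_{GL_d} P H_n` as a quotient set of `P H_n`. -/
def CoInv (d n : ℕ) : Type := Quot (CoRel d n)

theorem isPrim_iff {d n : ℕ} (z : Du d) : IsPrim d n z ↔ z ∈ PH d n := Iff.rfl

theorem isPrim_kam {d n : ℕ} (z : Du d) (hz : IsPrim d n z) :
    IsPrim d (d + 2 * n) (z.comp (down d)) := (kam d n ⟨z, hz⟩).2

/-- Kameko's map `P H_n → P H_(d+2n)`. -/
noncomputable def kamMap (d n : ℕ) (z : PHn d n) : PHn d (d + 2 * n) :=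
  ⟨z.val.comp (down d), isPrim_kam z.val z.property⟩

theorem relGrp_kam {d n : ℕ} (y : Du d) (hy : y ∈ relGrp d n) :
    y.comp (down d) ∈ relGrp d (d + 2 * n) := by
  rw [relGrp] at hy
  induction hy using AddSubgroup.closure_induction with
  | mem x hx =>
    obtain ⟨u, g, hu, rfl⟩ := hx
    refine AddSubgroup.subset_closure ⟨u.comp (down d), g, isPrim_kam u hu, ?_⟩
    apply LinearMap.ext
    intro f
    change u (act g.val (down d f)) - u (down d f) = u (down d (act g.val f)) - u (down d f)
    rw [down_act]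
  | zero => exact (relGrp d (d + 2 * n)).zero_mem
  | add x y _ _ hx hy => exact (relGrp d (d + 2 * n)).add_mem hx hy
  | neg x _ hx => exact (relGrp d (d + 2 * n)).neg_mem hx

theorem kamMap_rel (d n : ℕ) (z w : PHn d n) (h : CoRel d n z w) :
    CoRel d (d + 2 * n) (kamMap d n z) (kamMap d n w) :=
  relGrp_kam (z.val - w.val) h

/-- Kameko's squaring operation on the coinvariants. -/
noncomputable def sqCo (d n : ℕ) : CoInv d n → CoInv d (d + 2 * n) :=
  Quot.map (kamMap d n) (kamMap_rel d n)

theorem relGrp_of_relCo {d n : ℕ} (y : PH d n) (hy : y ∈ relCo d n) : (y : Du d) ∈ relGrp d n := by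
  rw [relCo] at hy
  induction hy using Submodule.span_induction with
  | mem x hx =>
    obtain ⟨z, g, rfl⟩ := hx
    exact AddSubgroup.subset_closure ⟨z.1, g, z.2, rfl⟩
  | zero => exact (relGrp d n).zero_mem
  | add x y _ _ hx hy => exact (relGrp d n).add_mem hx hy
  | smul c x _ hx =>
    have h2 : c = 0 ∨ c = 1 := by
      revert c
      decide
    rcases h2 with rfl | rfl
    · rw [zero_smul]
      exact (relGrp d n).zero_mem
    · rw [one_smul]
      exact hx

theorem relCo_of_relGrp {d n : ℕ} (y : PH d n) (hy : (y : Du d) ∈ relGrp d n) : y ∈ relCo d n := by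
  have h : relGrp d n ≤ ((relCo d n).map (PH d n).subtype).toAddSubgroup := by
    rw [relGrp, AddSubgroup.closure_le]
    rintro x ⟨u, g, hu, rfl⟩
    refine ⟨actPH n g.val ⟨u, hu⟩ - ⟨u, hu⟩, Submodule.subset_span ⟨⟨u, hu⟩, g, rfl⟩, rfl⟩
  obtain ⟨x, hx, hxy⟩ := h hy
  have : x = y := Subtype.ext hxy
  rw [← this]
  exact hx

/-- Comparison with the quotient module. -/
noncomputable def toCoinv (d n : ℕ) : CoInv d n → Coinv d n :=
  Quot.lift (fun z => (Submodule.Quotient.mk (⟨z.val, z.property⟩ : PH d n) : Coinv d n))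
    (by
      intro z w h
      rw [Submodule.Quotient.eq]
      exact relCo_of_relGrp _ h)

theorem sqCo_injective {d n : ℕ} (h : Function.Injective (sqCo d n)) :
    Function.Injective (sqTilde d n) := by
  rw [injective_iff_map_eq_zero]
  intro q hq
  obtain ⟨z, rfl⟩ := Submodule.Quotient.mk_surjective _ q
  rw [sqTilde, Submodule.mapQ_apply, Submodule.Quotient.mk_eq_zero] at hq
  have h1 : sqCo d n (Quot.mk _ ⟨z.1, z.2⟩) = sqCo d n (Quot.mk _ ⟨0, (PH d n).zero_mem⟩) := by
    refine Quot.sound ?_
    change z.1.comp (down d) - (0 : Du d).comp (down d) ∈ relGrp d (d + 2 * n)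
    have h2 : (0 : Du d).comp (down d) = 0 := rfl
    rw [h2, sub_zero]
    exact relGrp_of_relCo _ hq
  have h3 := congrArg (toCoinv d n) (h h1)
  change (Submodule.Quotient.mk z : Coinv d n) = Submodule.Quotient.mk 0 at h3
  rw [h3]
  rfl

end Pool.Agent.H989R3.Kameko
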