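import Pool.Agent.H989R3.Kameko.Coeff

/-!
Transvections acting on coefficient functionals, and the relation showing that
`Z(base + a + b + c + e)` dies in the coinvariants.
-/

set_option autoImplicit false

namespace Pool.Agent.H989R3.Kameko

open MvPolynomial

/-- The matrix of the transvection: the substitution `x_j ↦ x_j + x_i`. -/
abbrev tv {d : ℕ} (i j : Fin d) : Matrix (Fin d) (Fin d) (ZMod 2) := Matrix.transvection i j 1

theorem act_tv_self {d : ℕ} (i j : Fin d) (hij : i ≠ j) :
    act (tv i j) (X j) = X j + X i := by
  classical
  rw [act_X]
  have : ∀ l, (C (tv i j l j) * X l : Pol d) = (if l = j then X j else 0) + (if l = i then X i else 0) := by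
    intro l
    simp only [tv, Matrix.transvection, Matrix.add_apply, Matrix.one_apply, Matrix.single_apply]
    by_cases h1 : l = j
    · subst h1
      have : ¬ (i = l) := hij
      have h3 : ¬ (l = i) := fun h => hij h.symm
      simp [this, h3]
    · by_cases h2 : l = i
      · subst h2
        simp [h1]
      · have h3 : ¬ (i = l) := fun h => h2 h.symm
        simp [h1, h2, h3]
  rw [Finset.sum_congr rfl fun l _ => this l, Finset.sum_add_distrib]
  simp

theorem act_tv_ne {d : ℕ} (i j l : Fin d) (hl : l ≠ j) :
    act (tv i j) (X l) = X l := by
  classical
  rw [act_X, Finset.sum_eq_single l]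
  · have : ¬ (j = l) := fun h => hl h.symm
    simp [tv, Matrix.transvection, Matrix.add_apply, this]
  · intro b _ hb
    have : ¬ (j = l) := fun h => hl h.symm
    simp [tv, Matrix.transvection, Matrix.add_apply, this, hb]
  · simp

/-- Setting a variable to zero does not change coefficients of monomials without it. -/
theorem Zc_kill {d : ℕ} (j : Fin d) (s : Fin d →₀ ℕ) (hs : s j = 0) (f : Pol d) :
    Zc s (aeval (Function.update X j (0 : Pol d)) f) = Zc s f := by
  classical
  have key : (Zc s) ∘ₗ (aeval (Function.update X j (0 : Pol d)) : Pol d →ₐ[ZMod 2] Pol d).toLinearMap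
      = Zc s := by
    refine du_ext fun r => ?_
    rw [LinearMap.comp_apply, AlgHom.toLinearMap_apply, aeval_monomial, map_one, one_mul]
    by_cases hr : r j = 0
    · congr 1
      have : (monomial r 1 : Pol d) = r.prod fun n e => X n ^ e := by
        rw [monomial_eq, C_1, one_mul]
      rw [this]
      refine Finset.prod_congr rfl fun i hi => ?_
      have : i ≠ j := by
        rintro rfl
        exact (Finsupp.mem_support_iff.1 hi) hr
      simp only [Function.update_of_ne this]
    · rw [Zc_monomial, if_neg (by rintro rfl; exact hr hs)]
      have : (r.prod fun i k => (Function.update X j (0 : Pol d) i) ^ k) = 0 := by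
        refine Finset.prod_eq_zero (Finsupp.mem_support_iff.2 hr) ?_
        simp only [Function.update_self]
        exact zero_pow hr
      rw [this, map_zero]
  exact congrArg (fun φ : Du d => φ f) key

theorem Zc_tv {d : ℕ} (i j : Fin d) (hij : i ≠ j) (s : Fin d →₀ ℕ) (hs : s j = 0) (f : Pol d) :
    Zc s (act (tv i j) f) = Zc s (rename (Function.update id j i) f) := by
  classical
  rw [← Zc_kill j s hs]
  congr 1
  have key : (aeval (Function.update X j (0 : Pol d))).comp (act (tv i j)) =
      rename (Function.update id j i) := by
    apply algHom_ext
    intro l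
    rw [AlgHom.comp_apply, rename_X]
    by_cases hl : l = j
    · subst hl
      rw [act_tv_self i l hij, map_add, aeval_X, aeval_X, Function.update_self, zero_add,
        Function.update_of_ne hij, Function.update_self]
    · rw [act_tv_ne i j l hl, aeval_X, Function.update_of_ne hl, Function.update_of_ne hl]
      rfl
  exact congrArg (fun φ => φ f) key

/-- The exponent obtained from `b` by adding `p` at the index `i`. -/
noncomputable abbrev sg {d : ℕ} (i : Fin d) (p : ℕ) : Fin d →₀ ℕ := Finsupp.single i p

/-- Transvection formula. -/
theorem transv {d : ℕ} (i j : Fin d) (hij : i ≠ j) (b : Fin d →₀ ℕ) (hi : b i = 0) (hj : b j = 0)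
    (p : ℕ) (f : Pol d) :
    Zc (b + sg i p) (act (tv i j) f) =
      ∑ q ∈ Finset.HasAntidiagonal.antidiagonal p, Zc (b + sg i q.1 + sg j q.2) f := by
  classical
  rw [Zc_tv i j hij _ (by simp [hj, hij])]
  have key : (Zc (b + sg i p)) ∘ₗ
      (rename (Function.update id j i) : Pol d →ₐ[ZMod 2] Pol d).toLinearMap =
      ∑ q ∈ Finset.HasAntidiagonal.antidiagonal p, Zc (b + sg i q.1 + sg j q.2) := by
    refine du_ext fun r => ?_
    rw [LinearMap.comp_apply, AlgHom.toLinearMap_apply, rename_monomial, Zc_monomial,
      LinearMap.sum_apply]
    have hmap : ∀ l, (Finsupp.mapDomain (Function.update id j i) r) l =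
        if l = i then r i + r j else if l = j then 0 else r l := by
      intro l
      have hr : r = Finsupp.single j (r j) + r.erase j := (Finsupp.single_add_erase j r).symm
      have h2 : Finsupp.mapDomain (Function.update id j i) (r.erase j) = r.erase j := by
        conv_rhs => rw [← Finsupp.mapDomain_id (v := r.erase j)]
        refine Finsupp.mapDomain_congr fun x hx => ?_
        have : x ≠ j := by
          rintro rfl
          simp at hx
        rw [Function.update_of_ne this]
      conv_lhs => rw [hr]
      rw [Finsupp.mapDomain_add, Finsupp.mapDomain_single, h2, Function.update_self,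
        Finsupp.add_apply, Finsupp.single_apply, Finsupp.erase_apply]
      by_cases h3 : l = i
      · subst h3
        simp [hij, add_comm]
      · have h4 : ¬ (i = l) := fun h => h3 h.symm
        simp [h3, h4]
    simp only [Zc_monomial]
    by_cases hc : (∀ l, l ≠ i → l ≠ j → r l = b l) ∧ r i + r j = p
    · obtain ⟨hc1, hc2⟩ := hc
      rw [if_pos, Finset.sum_eq_single (r i, r j), if_pos]
      · ext l
        by_cases h1 : l = i
        · subst h1
          simp [hi, hij.symm]
        · by_cases h2 : l = j
          · subst h2
            simp [hj, hij]
          · have h3 : ¬ (i = l) := fun h => h1 h.symm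
            have h4 : ¬ (j = l) := fun h => h2 h.symm
            simp [hc1 l h1 h2, h3, h4]
      · rintro ⟨q1, q2⟩ _ hne
        rw [if_neg]
        intro he
        apply hne
        have e1 := DFunLike.congr_fun he i
        have e2 := DFunLike.congr_fun he j
        simp [hi, hij.symm] at e1
        simp [hj, hij] at e2
        rw [e1, e2]
      · intro hn
        exact absurd (Finset.HasAntidiagonal.mem_antidiagonal.2 hc2) hn
      · ext l
        rw [hmap l]
        by_cases h1 : l = i
        · subst h1
          simp [hi, hc2]
        · by_cases h2 : l = j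
          · subst h2
            simp [hj, h1]
          · simp [h1, h2, hc1 l h1 h2]
    · rw [if_neg, Finset.sum_eq_zero]
      · rintro ⟨q1, q2⟩ hq
        rw [if_neg]
        intro he
        apply hc
        refine ⟨fun l h1 h2 => ?_, ?_⟩
        · have e := DFunLike.congr_fun he l
          have h3 : ¬ (i = l) := fun h => h1 h.symm
          have h4 : ¬ (j = l) := fun h => h2 h.symm
          simpa [Finsupp.single_apply, h3, h4] using e
        · have e1 := DFunLike.congr_fun he i
          have e2 := DFunLike.congr_fun he j
          simp [hi, hij.symm] at e1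
          simp [hj, hij] at e2
          rw [e1, e2]
          exact Finset.HasAntidiagonal.mem_antidiagonal.1 hq
      · intro he
        apply hc
        refine ⟨fun l h1 h2 => ?_, ?_⟩
        · have e := DFunLike.congr_fun he l
          rw [hmap l] at e
          have h3 : ¬ (i = l) := fun h => h1 h.symm
          simpa [h1, h2, h3] using e
        · have e1 := DFunLike.congr_fun he i
          rw [hmap i] at e1
          simpa [hi] using e1
  have h := congrArg (fun φ : Du d => φ f) key
  simp only [LinearMap.sum_apply] at h
  exact h

end Pool.Agent.H989R3.Kameko
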